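import Mathlib

set_option autoImplicit false

/-! Elimination of the other forms by differencing. -/

namespace Pool.Agent.Helper80.AN

open Finset

lemma key3 (z w : ℂ) (hz : ‖z‖ ≤ 1) (hw : ‖w‖ ≤ 1) :
    1 - (z * (starRingEnd ℂ) w).re ≤ 3 * ((1 - z.re) + (1 - w.re)) := by
  have hz2 : z.re ^ 2 + z.im ^ 2 ≤ 1 := by
    have h := Complex.sq_norm z
    rw [Complex.normSq_apply] at h
    have h0 := norm_nonneg z
    nlinarith
  have hw2 : w.re ^ 2 + w.im ^ 2 ≤ 1 := by
    have h := Complex.sq_norm w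
    rw [Complex.normSq_apply] at h
    have h0 := norm_nonneg w
    nlinarith
  have e : (z * (starRingEnd ℂ) w).re = z.re * w.re + z.im * w.im := by
    rw [Complex.mul_re, Complex.conj_re, Complex.conj_im]
    ring
  rw [e]
  nlinarith [sq_nonneg (z.re - 1), sq_nonneg (w.re - 1), sq_nonneg (z.re + w.re - 2), sq_nonneg (z.im + w.im)]

lemma re_le (z : ℂ) (hz : ‖z‖ ≤ 1) : z.re ≤ 1 := (Complex.re_le_norm z).trans hz

lemma key (z w v : ℂ) (c : ℝ) (hz : ‖z‖ ≤ 1) (hw : ‖w‖ ≤ 1) (hv : ‖v‖ ≤ 1) (hc0 : 0 ≤ c) (hc1 : c ≤ 1)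
    (h : z * (starRingEnd ℂ) w = (c : ℂ) * v) :
    1 - v.re ≤ 6 * ((1 - z.re) + (1 - w.re)) := by
  have h1 := key3 z w hz hw
  rw [h, Complex.re_ofReal_mul] at h1
  have hz1 := re_le z hz
  have hw1 := re_le w hw
  have hv1 : -1 ≤ v.re := by
    have := (Complex.abs_re_le_norm v).trans hv
    exact (abs_le.1 this).1
  rcases le_total 0 v.re with h0 | h0
  · nlinarith [mul_le_mul_of_nonneg_right hc1 h0]
  · nlinarith [mul_nonpos_of_nonneg_of_nonpos hc0 h0]

lemma bonf {ι κ : Type*} [DecidableEq ι] [DecidableEq κ] (S : Finset ι) (N : Finset κ) (A : ι → Finset κ)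
    (hA : ∀ i ∈ S, A i ⊆ N) : ∑ i ∈ S, (A i).card ≤ N.card + ∑ p ∈ S.offDiag, (A p.1 ∩ A p.2).card := by
  have h1 : ∀ i ∈ S, (A i).card = ∑ x ∈ N, if x ∈ A i then 1 else 0 := by
    intro i hi
    rw [Finset.sum_boole, Finset.filter_mem_eq_inter, inter_eq_right.2 (hA i hi)]
    simp
  have h2 : ∀ p ∈ S.offDiag, (A p.1 ∩ A p.2).card = ∑ x ∈ N, if x ∈ A p.1 ∧ x ∈ A p.2 then 1 else 0 := by
    intro p hp
    rw [mem_offDiag] at hp
    have : (A p.1 ∩ A p.2) = N.filter (fun x => x ∈ A p.1 ∧ x ∈ A p.2) := by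
      ext x
      simp only [mem_inter, mem_filter]
      constructor
      · exact fun h => ⟨hA _ hp.1 h.1, h⟩
      · exact fun h => h.2
    rw [this, Finset.sum_boole]
    simp
  rw [sum_congr rfl h1, sum_congr rfl h2, sum_comm, sum_comm (s := S.offDiag), card_eq_sum_ones, ← sum_add_distrib]
  apply sum_le_sum
  intro x _
  have e1 : (∑ i ∈ S, if x ∈ A i then 1 else 0) = (S.filter (fun i => x ∈ A i)).card := by
    rw [Finset.sum_boole]; simp
  have e2 : (∑ p ∈ S.offDiag, if x ∈ A p.1 ∧ x ∈ A p.2 then 1 else 0) = (S.filter (fun i => x ∈ A i)).offDiag.card := by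
    rw [Finset.sum_boole]
    simp only [Nat.cast_id]
    congr 1
    ext p
    simp only [mem_filter, mem_offDiag]
    tauto
  rw [e1, e2, offDiag_card]
  generalize (S.filter (fun i => x ∈ A i)).card = r
  rcases r with _ | _ | r
  · simp
  · simp
  · have : (r + 1 + 1) * (r + 1 + 1) - (r + 1 + 1) = (r + 2) * (r + 1) := by
      have e : (r + 1 + 1) * (r + 1 + 1) = (r + 2) * (r + 1) + (r + 1 + 1) := by ring
      rw [e, Nat.add_sub_cancel]
    rw [this]
    nlinarith

lemma pig (ε : ℝ) (hε : 0 < ε) : ∃ T : ℕ, ∃ c : ℝ, 0 < c ∧ ∀ M : ℤ, M ≠ 0 → ∃ X₀ : ℕ, ∀ X : ℕ, X₀ ≤ X →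
    ∀ B : Finset ℤ, B ⊆ Icc 1 (X : ℤ) → ε * X ≤ B.card →
    ∃ t : ℕ, 1 ≤ t ∧ t ≤ T ∧ c * X ≤ ((B.filter (fun n => n + M * t ∈ B)).card : ℝ) := by
  obtain ⟨T, hT⟩ : ∃ T : ℕ, T = ⌈3 / ε⌉₊ := ⟨_, rfl⟩
  have hT1 : 3 ≤ ε * (T + 1) := by
    have := Nat.le_ceil (3 / ε)
    rw [← hT, div_le_iff₀ hε] at this
    nlinarith
  refine ⟨T, 1 / ((T : ℝ) + 1) ^ 2, by positivity, fun M hM => ⟨2 * M.natAbs * T + 1, fun X hX B hB hBc => ?_⟩⟩
  by_contra hcon
  push Not at hcon
  have hX1 : (2 * M.natAbs * T : ℝ) ≤ X := by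
    exact_mod_cast (by omega : 2 * M.natAbs * T ≤ X)
  have hXp : (0 : ℝ) < X := by
    exact_mod_cast (by omega : 0 < X)
  obtain ⟨F, hF⟩ : ∃ F : ℕ → Finset ℤ, F = fun i : ℕ => B.map (addRightEmbedding (M * (i : ℤ))) := ⟨_, rfl⟩
  have hFm : ∀ i : ℕ, ∀ x, x ∈ F i ↔ x - M * i ∈ B := by
    intro i x
    rw [hF]
    simp only [mem_map, addRightEmbedding_apply]
    constructor
    · rintro ⟨y, hy, rfl⟩
      rwa [add_sub_cancel_right]
    · intro h
      exact ⟨_, h, by ring⟩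
  have hFs : ∀ i ∈ range (T + 1), F i ⊆ Icc (1 - M.natAbs * T : ℤ) (X + M.natAbs * T) := by
    intro i hi x hx
    rw [hFm] at hx
    have h1 := mem_Icc.1 (hB hx)
    have hi' : (i : ℤ) ≤ T := by exact_mod_cast (by have := mem_range.1 hi; omega : i ≤ T)
    have h2 : |M * i| ≤ M.natAbs * T := by
      rw [abs_mul, Nat.abs_cast, Int.abs_eq_natAbs]
      exact mul_le_mul_of_nonneg_left hi' (by positivity)
    have h3 := abs_le.1 h2
    rw [mem_Icc]
    constructor <;> linarith [h1.1, h1.2, h3.1, h3.2]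
  have hb := bonf (range (T + 1)) _ F hFs
  have hcardN : ((Icc (1 - M.natAbs * T : ℤ) (X + M.natAbs * T)).card : ℝ) = X + 2 * M.natAbs * T := by
    rw [Int.card_Icc]
    have : ((X : ℤ) + M.natAbs * T + 1 - (1 - M.natAbs * T)) = ((X + 2 * M.natAbs * T : ℕ) : ℤ) := by
      push_cast; ring
    rw [this, Int.toNat_natCast]
    push_cast; ring
  have hsum1 : ((∑ i ∈ range (T + 1), (F i).card : ℕ) : ℝ) = (T + 1) * B.card := by
    have : ∀ i ∈ range (T + 1), (F i).card = B.card := by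
      intro i _
      rw [hF]; exact card_map _
    rw [sum_congr rfl this, sum_const, card_range, smul_eq_mul]
    push_cast; ring
  have hpair : ∀ p ∈ (range (T + 1)).offDiag, ((F p.1 ∩ F p.2).card : ℝ) < 1 / ((T : ℝ) + 1) ^ 2 * X := by
    have key : ∀ i j : ℕ, j < i → i < T + 1 → ((F i ∩ F j).card : ℝ) < 1 / ((T : ℝ) + 1) ^ 2 * X := by
      intro i j hji hi
      refine lt_of_le_of_lt ?_ (hcon (i - j) (by omega) (by omega))
      norm_cast
      apply card_le_card_of_injOn (fun x => x - M * i)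
      · intro x hx
        rw [mem_coe, mem_inter, hFm, hFm] at hx
        rw [mem_coe, mem_filter]
        refine ⟨hx.1, ?_⟩
        have e : x - M * i + M * ((i - j : ℕ) : ℤ) = x - M * j := by
          rw [Nat.cast_sub hji.le]; ring
        rw [e]; exact hx.2
      · intro x _ y _ h
        simpa using h
    intro p hp
    rw [mem_offDiag, mem_range, mem_range] at hp
    rcases lt_or_gt_of_ne hp.2.2 with h | h
    · rw [inter_comm]
      exact key _ _ h hp.2.1
    · exact key _ _ h hp.1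
  have hsum2 : ((∑ p ∈ (range (T + 1)).offDiag, (F p.1 ∩ F p.2).card : ℕ) : ℝ) ≤ X := by
    push_cast
    refine (sum_le_sum fun p hp => (hpair p hp).le).trans ?_
    rw [sum_const, nsmul_eq_mul, offDiag_card, card_range]
    have h1 : (((T + 1) * (T + 1) - (T + 1) : ℕ) : ℝ) ≤ ((T : ℝ) + 1) ^ 2 := by
      have : (((T + 1) * (T + 1) - (T + 1) : ℕ) : ℝ) ≤ (((T + 1) * (T + 1) : ℕ) : ℝ) := by
        exact_mod_cast Nat.sub_le _ _
      refine this.trans (le_of_eq ?_)
      push_cast; ring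
    calc (((T + 1) * (T + 1) - (T + 1) : ℕ) : ℝ) * (1 / ((T : ℝ) + 1) ^ 2 * X)
        ≤ ((T : ℝ) + 1) ^ 2 * (1 / ((T : ℝ) + 1) ^ 2 * X) := mul_le_mul_of_nonneg_right h1 (by positivity)
      _ = X := by field_simp
  have hb' : ((∑ i ∈ range (T + 1), (F i).card : ℕ) : ℝ) ≤ ((Icc (1 - M.natAbs * T : ℤ) (X + M.natAbs * T)).card : ℝ)
      + ((∑ p ∈ (range (T + 1)).offDiag, (F p.1 ∩ F p.2).card : ℕ) : ℝ) := by exact_mod_cast hb
  rw [hsum1, hcardN] at hb'
  have h5 : 3 * (X : ℝ) ≤ (T + 1) * B.card := by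
    calc 3 * (X : ℝ) ≤ (ε * (T + 1)) * X := mul_le_mul_of_nonneg_right hT1 hXp.le
      _ = (T + 1) * (ε * X) := by ring
      _ ≤ _ := mul_le_mul_of_nonneg_left hBc (by positivity)
  -- 3X ≤ X + 2|M|T + X gives equality; need strictness
  have hX1' : (2 * M.natAbs * T : ℝ) + 1 ≤ X := by
    exact_mod_cast hX
  linarith

/-- boundary of a window -/
lemma bdry (u : ℤ) (A : ℕ) (s : ℤ) :
    ((Ioc u (u + A)).filter (fun a => a + s ∉ Ioc u (u + A))).card ≤ s.natAbs := by
  rcases le_total 0 s with h | h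
  · have : ((Ioc u (u + A)).filter (fun a => a + s ∉ Ioc u (u + A))) ⊆ Ioc (u + A - s) (u + A) := by
      intro a ha
      rw [mem_filter, mem_Ioc, mem_Ioc] at ha
      rw [mem_Ioc]
      omega
    refine (card_le_card this).trans ?_
    rw [Int.card_Ioc]
    omega
  · have : ((Ioc u (u + A)).filter (fun a => a + s ∉ Ioc u (u + A))) ⊆ Ioc u (u - s) := by
      intro a ha
      rw [mem_filter, mem_Ioc, mem_Ioc] at ha
      rw [mem_Ioc]
      omega
    refine (card_le_card this).trans ?_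
    rw [Int.card_Ioc]
    omega

lemma tel (ψ : ℤ → ℝ) (hψ : ∀ a, ψ a * ψ a = 1) (q : ℤ) (b : ℤ) (t : ℕ) :
    ∏ i ∈ range t, (ψ (b + q * i) * ψ (b + q * i + q)) = ψ b * ψ (b + q * t) := by
  induction t with
  | zero => simp [hψ]
  | succ t ih =>
    rw [prod_range_succ, ih]
    have e : b + q * ((t + 1 : ℕ) : ℤ) = b + q * t + q := by push_cast; ring
    rw [e]
    have := hψ (b + q * t)
    calc ψ b * ψ (b + q * t) * (ψ (b + q * t) * ψ (b + q * t + q))
        = ψ b * (ψ (b + q * t) * ψ (b + q * t)) * ψ (b + q * t + q) := by ring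
      _ = _ := by rw [this]; ring

lemma unwind_id (φ : ℤ → ℝ) (hφ : ∀ a, φ a * φ a = 1) (q t : ℕ) (a : ℤ)
    (h : ∀ i < t, ∀ j < q, (φ (a + t * j + q * i) * φ (a + t * j + q * i + t)) *
      (φ (a + t * j + q * i + q) * φ (a + t * j + q * i + q + t)) = 1) :
    φ a * φ (a + (2 * q * t : ℕ)) = 1 := by
  have hψ : ∀ a : ℤ, (fun a => φ a * φ (a + t)) a * (fun a => φ a * φ (a + t)) a = 1 := by
    intro a
    have h1 := hφ a
    have h2 := hφ (a + t)
    calc (φ a * φ (a + t)) * (φ a * φ (a + t)) = (φ a * φ a) * (φ (a + t) * φ (a + t)) := by ring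
      _ = 1 := by rw [h1, h2]; norm_num
  have h1 : ∀ j < q, (φ (a + t * j) * φ (a + t * j + t)) * (φ (a + t * j + q * t) * φ (a + t * j + q * t + t)) = 1 := by
    intro j hj
    have := tel (fun a => φ a * φ (a + t)) hψ q (a + t * j) t
    rw [← this]
    apply prod_eq_one
    intro i hi
    exact h i (mem_range.1 hi) j hj
  have h2 := tel φ hφ t a q
  have h3 := tel φ hφ t (a + q * t) q
  have h4 : (∏ j ∈ range q, (φ (a + t * j) * φ (a + t * j + t))) *
      (∏ j ∈ range q, (φ (a + q * t + t * j) * φ (a + q * t + t * j + t))) = 1 := by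
    rw [← prod_mul_distrib]
    apply prod_eq_one
    intro j hj
    have := h1 j (mem_range.1 hj)
    have e : a + (q : ℤ) * t + t * j = a + t * j + q * t := by ring
    rw [e]
    exact this
  rw [h2, h3] at h4
  have e1 : a + (q : ℤ) * t = a + t * q := by ring
  have e2 : a + (t : ℤ) * q + t * q = a + (2 * q * t : ℕ) := by push_cast; ring
  rw [e1, e2] at h4
  have h5 := hφ (a + t * q)
  calc φ a * φ (a + (2 * q * t : ℕ)) = φ a * (φ (a + t * q) * φ (a + t * q)) * φ (a + (2 * q * t : ℕ)) := by rw [h5]; ring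
    _ = _ := by rw [← h4]; ring

/-- removing one difference -/
lemma unwind (φ : ℤ → ℝ) (hφ : ∀ a, φ a * φ a = 1) (u : ℤ) (A q t : ℕ) (E : ℝ)
    (h : (((Ioc u (u + A)).filter (fun a => (φ a * φ (a + t)) * (φ (a + q) * φ (a + q + t)) ≠ 1)).card : ℝ) ≤ E) :
    (((Ioc u (u + A)).filter (fun a => φ a * φ (a + (2 * q * t : ℕ)) ≠ 1)).card : ℝ) ≤ q * t * E + 2 * q * t := by
  obtain ⟨Bad, hBad⟩ : ∃ Bad, Bad = ((Ioc u (u + A)).filter (fun a => (φ a * φ (a + t)) * (φ (a + q) * φ (a + q + t)) ≠ 1)) := ⟨_, rfl⟩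
  rw [← hBad] at h
  have hsub : (Ioc u (u + A)).filter (fun a => φ a * φ (a + (2 * q * t : ℕ)) ≠ 1) ⊆
      ((Ioc u (u + A)).filter (fun a => a + (2 * q * t : ℕ) ∉ Ioc u (u + A))) ∪
      ((range t ×ˢ range q).biUnion (fun p : ℕ × ℕ => Bad.image (fun x : ℤ => x - ((t : ℤ) * p.2 + q * p.1)))) := by
    intro a ha
    rw [mem_filter] at ha
    rw [mem_union, mem_filter]
    by_cases hb : a + (2 * q * t : ℕ) ∈ Ioc u (u + A)
    swap
    · exact Or.inl ⟨ha.1, hb⟩
    right
    by_contra hcon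
    apply ha.2
    apply unwind_id φ hφ
    intro i hi j hj
    by_contra hne
    apply hcon
    rw [mem_biUnion]
    refine ⟨(i, j), by rw [mem_product, mem_range, mem_range]; exact ⟨hi, hj⟩, ?_⟩
    rw [mem_image]
    refine ⟨a + t * j + q * i, ?_, by ring⟩
    rw [hBad, mem_filter]
    refine ⟨?_, hne⟩
    rw [mem_Ioc] at hb ⊢
    have hai := (mem_Ioc.1 ha.1)
    have h1 : t * j + q * i ≤ 2 * q * t := by
      have e1 : t * j ≤ t * q := Nat.mul_le_mul_left _ hj.le
      have e2 : q * i ≤ q * t := Nat.mul_le_mul_left _ hi.le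
      nlinarith
    have h1' : (t : ℤ) * j + q * i ≤ (2 * q * t : ℕ) := by exact_mod_cast h1
    have h2 : (0 : ℤ) ≤ (t : ℤ) * j + q * i := by positivity
    constructor <;> linarith [hb.1, hb.2, hai.1, hai.2]
  have hc1 := card_le_card hsub
  have hc2 := hc1.trans (card_union_le _ _)
  have hc3 : (((range t ×ˢ range q).biUnion (fun p : ℕ × ℕ => Bad.image (fun x : ℤ => x - ((t : ℤ) * p.2 + q * p.1)))).card) ≤ t * q * Bad.card := by
    refine card_biUnion_le.trans ?_
    refine (sum_le_sum fun p _ => card_image_le).trans ?_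
    rw [sum_const, card_product, card_range, card_range, smul_eq_mul]
  have hc4 := bdry u A ((2 * q * t : ℕ) : ℤ)
  rw [Int.natAbs_natCast] at hc4
  have hc5 : ((Ioc u (u + A)).filter (fun a => φ a * φ (a + (2 * q * t : ℕ)) ≠ 1)).card ≤ 2 * q * t + t * q * Bad.card := by
    omega
  have hc6 : (((Ioc u (u + A)).filter (fun a => φ a * φ (a + (2 * q * t : ℕ)) ≠ 1)).card : ℝ) ≤ 2 * q * t + t * q * Bad.card := by
    exact_mod_cast hc5
  refine hc6.trans ?_
  have h0 : (0 : ℝ) ≤ t * q := by positivity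
  nlinarith [mul_le_mul_of_nonneg_left h h0]

/-- long runs -/
lemma longrun (φ : ℤ → ℝ) (hφ : ∀ a, φ a * φ a = 1) (u : ℤ) (A q k : ℕ) (E : ℝ)
    (h : (((Ioc u (u + A)).filter (fun a => φ a * φ (a + q) ≠ 1)).card : ℝ) ≤ E) :
    (k : ℝ) * (A - k * E - k * q) ≤ ∑ a ∈ Ioc u (u + A), |∑ i ∈ range k, φ (a + q * i)| := by
  obtain ⟨Bad, hBad⟩ : ∃ Bad, Bad = ((Ioc u (u + A)).filter (fun a => φ a * φ (a + q) ≠ 1)) := ⟨_, rfl⟩
  rw [← hBad] at h
  have hsub : (Ioc u (u + A)).filter (fun a => ¬ (|∑ i ∈ range k, φ (a + q * i)| = k)) ⊆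
      ((Ioc u (u + A)).filter (fun a => a + (k * q : ℕ) ∉ Ioc u (u + A))) ∪
      ((range k).biUnion (fun i : ℕ => Bad.image (fun x : ℤ => x - (q : ℤ) * i))) := by
    intro a ha
    rw [mem_filter] at ha
    rw [mem_union, mem_filter]
    by_cases hb : a + (k * q : ℕ) ∈ Ioc u (u + A)
    swap
    · exact Or.inl ⟨ha.1, hb⟩
    right
    by_contra hcon
    apply ha.2
    have hstep : ∀ i < k, φ (a + q * i) * φ (a + q * i + q) = 1 := by
      intro i hi
      by_contra hne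
      apply hcon
      rw [mem_biUnion]
      refine ⟨i, mem_range.2 hi, ?_⟩
      rw [mem_image]
      refine ⟨a + q * i, ?_, by ring⟩
      rw [hBad, mem_filter]
      refine ⟨?_, hne⟩
      rw [mem_Ioc] at hb ⊢
      have hai := (mem_Ioc.1 ha.1)
      have h1 : q * i ≤ k * q := by
        rw [mul_comm k q]; exact Nat.mul_le_mul_left _ hi.le
      have h1' : (q : ℤ) * i ≤ (k * q : ℕ) := by exact_mod_cast h1
      have h2 : (0 : ℤ) ≤ (q : ℤ) * i := by positivity
      constructor <;> linarith [hb.1, hb.2, hai.1, hai.2]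
    have hconst : ∀ i ≤ k, φ (a + q * i) = φ a := by
      intro i
      induction i with
      | zero => intro _; simp
      | succ i ih =>
        intro hi
        have h1 := ih (by omega)
        have h2 := hstep i (by omega)
        have e : a + q * ((i + 1 : ℕ) : ℤ) = a + q * i + q := by push_cast; ring
        rw [e]
        have h3 := hφ (a + q * i)
        have h4 : φ (a + q * i) * (φ (a + q * i + q) - φ (a + q * i)) = 0 := by
          rw [mul_sub, h2, h3, sub_self]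
        rcases mul_eq_zero.1 h4 with h5 | h5
        · rw [h5] at h3; norm_num at h3
        · rw [sub_eq_zero.1 h5, h1]
    have : ∑ i ∈ range k, φ (a + q * i) = k * φ a := by
      rw [sum_congr rfl (fun i hi => hconst i (mem_range.1 hi).le), sum_const, card_range, nsmul_eq_mul]
    rw [this, abs_mul, Nat.abs_cast]
    have h3 := hφ a
    have h6 : |φ a| = 1 := by
      have : |φ a| * |φ a| = 1 := by rw [← abs_mul, h3, abs_one]
      nlinarith [abs_nonneg (φ a)]
    rw [h6, mul_one]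
  have hc1 := card_le_card hsub
  have hc2 := hc1.trans (card_union_le _ _)
  have hc3 : ((range k).biUnion (fun i : ℕ => Bad.image (fun x : ℤ => x - (q : ℤ) * i))).card ≤ k * Bad.card := by
    refine card_biUnion_le.trans ?_
    refine (sum_le_sum fun p _ => card_image_le).trans ?_
    rw [sum_const, card_range, smul_eq_mul]
  have hc4 := bdry u A ((k * q : ℕ) : ℤ)
  rw [Int.natAbs_natCast] at hc4
  have hc5 : ((Ioc u (u + A)).filter (fun a => ¬ (|∑ i ∈ range k, φ (a + q * i)| = k))).card ≤ k * q + k * Bad.card := by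
    omega
  have hc6 : (((Ioc u (u + A)).filter (fun a => ¬ (|∑ i ∈ range k, φ (a + q * i)| = k))).card : ℝ) ≤ k * q + k * Bad.card := by
    exact_mod_cast hc5
  have hc7 := card_filter_add_card_filter_not (s := Ioc u (u + A)) (fun a => |∑ i ∈ range k, φ (a + q * i)| = k)
  rw [Int.card_Ioc, add_sub_cancel_left, Int.toNat_natCast] at hc7
  have hc8 : (((Ioc u (u + A)).filter (fun a => |∑ i ∈ range k, φ (a + q * i)| = k)).card : ℝ) +
      (((Ioc u (u + A)).filter (fun a => ¬ (|∑ i ∈ range k, φ (a + q * i)| = k))).card : ℝ) = A := by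
    exact_mod_cast hc7
  have hlow : (k : ℝ) * ((Ioc u (u + A)).filter (fun a => |∑ i ∈ range k, φ (a + q * i)| = k)).card ≤
      ∑ a ∈ Ioc u (u + A), |∑ i ∈ range k, φ (a + q * i)| := by
    have e1 : (k : ℝ) * ((Ioc u (u + A)).filter (fun a => |∑ i ∈ range k, φ (a + q * i)| = k)).card =
        ∑ a ∈ (Ioc u (u + A)).filter (fun a => |∑ i ∈ range k, φ (a + q * i)| = k), |∑ i ∈ range k, φ (a + q * i)| := by
      rw [sum_congr rfl (g := fun _ => (k : ℝ)) (fun a ha => (mem_filter.1 ha).2), sum_const, nsmul_eq_mul, mul_comm]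
    rw [e1]
    apply sum_le_sum_of_subset_of_nonneg (filter_subset _ _)
    intro a _ _
    exact abs_nonneg _
  refine le_trans ?_ hlow
  apply mul_le_mul_of_nonneg_left _ (Nat.cast_nonneg _)
  have hk : (0 : ℝ) ≤ k := Nat.cast_nonneg _
  nlinarith [mul_le_mul_of_nonneg_left h hk]

end Pool.Agent.Helper80.AN
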