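import Pool.Agent.Helper80.AN.Elim

set_option autoImplicit false

/-! Elimination of the other forms by differencing: the induction. -/

namespace Pool.Agent.Helper80.AN

open Finset

lemma pair (u : ℤ) (A : ℕ) (s : ℤ) (E : ℝ) (z w v : ℤ → ℂ) (c : ℤ → ℝ) (hz : ∀ a, ‖z a‖ ≤ 1) (hw : ∀ a, ‖w a‖ ≤ 1)
    (hv : ∀ a, ‖v a‖ ≤ 1) (hc0 : ∀ a, 0 ≤ c a) (hc1 : ∀ a, c a ≤ 1)
    (h : ∀ a, z a * (starRingEnd ℂ) (w (a - s)) = (c a : ℂ) * v a)
    (h1 : ∑ a ∈ Ioc u (u + A), (1 - (z a).re) ≤ E) (h2 : ∑ a ∈ Ioc u (u + A), (1 - (w a).re) ≤ E) :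
    ∑ a ∈ Ioc u (u + A), (1 - (v a).re) ≤ 12 * E + 2 * s.natAbs := by
  rw [← sum_filter_add_sum_filter_not (Ioc u (u + A)) (fun a => a + -s ∈ Ioc u (u + A))]
  have hz0 : ∀ a, 0 ≤ 1 - (z a).re := fun a => sub_nonneg.2 (re_le _ (hz a))
  have hw0 : ∀ a, 0 ≤ 1 - (w a).re := fun a => sub_nonneg.2 (re_le _ (hw a))
  have e1 : ∑ a ∈ (Ioc u (u + A)).filter (fun a => a + -s ∈ Ioc u (u + A)), (1 - (v a).re) ≤
      ∑ a ∈ (Ioc u (u + A)).filter (fun a => a + -s ∈ Ioc u (u + A)), (6 * (1 - (z a).re) + 6 * (1 - (w (a - s)).re)) := by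
    apply sum_le_sum
    intro a _
    have := key (z a) (w (a - s)) (v a) (c a) (hz a) (hw _) (hv a) (hc0 a) (hc1 a) (h a)
    linarith
  have e2 : ∑ a ∈ (Ioc u (u + A)).filter (fun a => a + -s ∈ Ioc u (u + A)), (1 - (z a).re) ≤ E := by
    refine (sum_le_sum_of_subset_of_nonneg (filter_subset _ _) fun a _ _ => hz0 a).trans h1
  have e3 : ∑ a ∈ (Ioc u (u + A)).filter (fun a => a + -s ∈ Ioc u (u + A)), (1 - (w (a - s)).re) ≤ E := by
    refine le_trans ?_ h2
    have : ∑ a ∈ (Ioc u (u + A)).filter (fun a => a + -s ∈ Ioc u (u + A)), (1 - (w (a - s)).re) =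
        ∑ b ∈ ((Ioc u (u + A)).filter (fun a => a + -s ∈ Ioc u (u + A))).image (fun a => a - s), (1 - (w b).re) := by
      rw [sum_image]
      intro x _ y _ hxy
      simpa using hxy
    rw [this]
    apply sum_le_sum_of_subset_of_nonneg _ fun a _ _ => hw0 a
    intro b hb
    rw [mem_image] at hb
    obtain ⟨a, ha, rfl⟩ := hb
    rw [sub_eq_add_neg]
    exact (mem_filter.1 ha).2
  have e4 : ∑ a ∈ (Ioc u (u + A)).filter (fun a => ¬ (a + -s ∈ Ioc u (u + A))), (1 - (v a).re) ≤ 2 * s.natAbs := by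
    have hv2 : ∀ a ∈ (Ioc u (u + A)).filter (fun a => ¬ (a + -s ∈ Ioc u (u + A))), (1 - (v a).re) ≤ 2 := by
      intro a _
      have := (Complex.abs_re_le_norm (v a)).trans (hv a)
      linarith [(abs_le.1 this).1]
    refine (sum_le_sum hv2).trans ?_
    rw [sum_const, nsmul_eq_mul]
    have := bdry u A (-s)
    rw [Int.natAbs_neg] at this
    have h3 : (((Ioc u (u + A)).filter (fun a => ¬ (a + -s ∈ Ioc u (u + A)))).card : ℝ) ≤ s.natAbs := by exact_mod_cast this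
    linarith
  rw [sum_add_distrib, ← mul_sum, ← mul_sum] at e1
  linarith

lemma norm_prod_le_one {l : ℕ} (x : Fin l → ℂ) (h : ∀ j, ‖x j‖ ≤ 1) : ‖∏ j, x j‖ ≤ 1 := by
  rw [norm_prod]
  exact prod_le_one (fun _ _ => norm_nonneg _) (fun j _ => h j)

lemma norm_pm (x : ℝ) (h : x * x = 1) : ‖(x : ℂ)‖ = 1 := by
  rw [Complex.norm_real, Real.norm_eq_abs]
  have : |x| * |x| = 1 := by rw [← abs_mul, h, abs_one]
  nlinarith [abs_nonneg x]

lemma norm_term {l : ℕ} (σ : ℂ) (hσ : ‖σ‖ ≤ 1) (x : ℝ) (hx : x * x = 1) (y : Fin l → ℂ) (hy : ∀ j, ‖y j‖ ≤ 1) :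
    ‖σ * (x : ℂ) * ∏ j, y j‖ ≤ 1 := by
  rw [norm_mul, norm_mul, norm_pm x hx, mul_one]
  exact mul_le_one₀ hσ (norm_nonneg _) (norm_prod_le_one y hy)

/-- polynomial phases -/
noncomputable def ph (P : Polynomial ℝ) (a : ℤ) : ℂ := Complex.exp (2 * Real.pi * Complex.I * ((P.eval (a : ℝ) : ℝ) : ℂ))

lemma ph_norm (P : Polynomial ℝ) (a : ℤ) : ‖ph P a‖ = 1 := by
  unfold ph
  have : 2 * (Real.pi : ℂ) * Complex.I * ((P.eval (a : ℝ) : ℝ) : ℂ) = ((2 * Real.pi * P.eval (a : ℝ) : ℝ) : ℂ) * Complex.I := by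
    push_cast; ring
  rw [this, Complex.norm_exp_ofReal_mul_I]

lemma ph_conj (P : Polynomial ℝ) (a : ℤ) : (starRingEnd ℂ) (ph P a) = Complex.exp (-(2 * Real.pi * Complex.I * ((P.eval (a : ℝ) : ℝ) : ℂ))) := by
  unfold ph
  rw [← Complex.exp_conj]
  congr 1
  simp only [map_mul, Complex.conj_I, Complex.conj_ofReal, map_ofNat]
  ring

lemma ph_sub (P Q : Polynomial ℝ) (s : ℤ) (a : ℤ) :
    ph P a * (starRingEnd ℂ) (ph Q (a - s)) = ph (P - Q.comp (Polynomial.X - Polynomial.C (s : ℝ))) a := by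
  rw [ph_conj]
  unfold ph
  rw [← Complex.exp_add]
  congr 1
  rw [Polynomial.eval_sub, Polynomial.eval_comp, Polynomial.eval_sub, Polynomial.eval_X, Polynomial.eval_C]
  push_cast
  ring

lemma ph_deg (P Q : Polynomial ℝ) (s : ℤ) (d : ℕ) (hP : P.natDegree ≤ d) (hQ : Q.natDegree ≤ d) :
    (P - Q.comp (Polynomial.X - Polynomial.C (s : ℝ))).natDegree ≤ d := by
  have h : (Q.comp (Polynomial.X - Polynomial.C (s : ℝ))).natDegree ≤ d := by
    rw [Polynomial.natDegree_comp, Polynomial.natDegree_X_sub_C, mul_one]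
    exact hQ
  exact (Polynomial.natDegree_sub_le_of_le hP h).trans (max_self d).le

lemma ph_deg' (P : Polynomial ℝ) (s : ℤ) (d : ℕ) (hP : P.natDegree ≤ d + 1) :
    (P - P.comp (Polynomial.X - Polynomial.C (s : ℝ))).natDegree ≤ d := by
  rcases Nat.eq_zero_or_pos P.natDegree with h0 | h0
  · rw [Polynomial.eq_C_of_natDegree_eq_zero h0, Polynomial.C_comp, sub_self, Polynomial.natDegree_zero]
    exact Nat.zero_le _
  · have hP0 : P ≠ 0 := by
      rintro rfl
      simp at h0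
    have h1 : (P.comp (Polynomial.X - Polynomial.C (s : ℝ))).natDegree = P.natDegree := by
      rw [Polynomial.natDegree_comp, Polynomial.natDegree_X_sub_C, mul_one]
    have h1' : P.comp (Polynomial.X - Polynomial.C (s : ℝ)) ≠ 0 := by
      intro h
      rw [h, Polynomial.natDegree_zero] at h1
      omega
    have h2 : P.degree = (P.comp (Polynomial.X - Polynomial.C (s : ℝ))).degree := by
      rw [Polynomial.degree_eq_natDegree hP0, Polynomial.degree_eq_natDegree h1', h1]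
    have h3 : P.leadingCoeff = (P.comp (Polynomial.X - Polynomial.C (s : ℝ))).leadingCoeff := by
      rw [Polynomial.leadingCoeff_comp (by rw [Polynomial.natDegree_X_sub_C]; norm_num), Polynomial.leadingCoeff_X_sub_C, one_pow, mul_one]
    have h4 := Polynomial.degree_sub_lt_left h2 hP0 h3
    rcases eq_or_ne (P - P.comp (Polynomial.X - Polynomial.C (s : ℝ))) 0 with h5 | h5
    · rw [h5, Polynomial.natDegree_zero]
      exact Nat.zero_le _
    · have h6 := Polynomial.natDegree_lt_natDegree h5 h4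
      omega

lemma base0 (φ : ℤ → ℝ) (hφ : ∀ a, φ a * φ a = 1) (u : ℤ) (A : ℕ) (E : ℝ) (σ : ℂ) (hσ : ‖σ‖ ≤ 1)
    (hs : ∑ a ∈ Ioc u (u + A), (1 - (σ * (φ a : ℂ)).re) ≤ E) :
    (((Ioc u (u + A)).filter (fun a => φ a * φ (a + 1) ≠ 1)).card : ℝ) ≤ 6 * E + 1 := by
  have hp := pair u A (-1) E (fun a => σ * (φ a : ℂ)) (fun a => σ * (φ a : ℂ))
      (fun a => ((φ a * φ (a + 1) : ℝ) : ℂ)) (fun _ => Complex.normSq σ)
      (fun a => by rw [norm_mul, norm_pm _ (hφ _), mul_one]; exact hσ)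
      (fun a => by rw [norm_mul, norm_pm _ (hφ _), mul_one]; exact hσ)
      (fun a => by rw [Complex.ofReal_mul, norm_mul, norm_pm _ (hφ _), norm_pm _ (hφ _), mul_one])
      (fun _ => Complex.normSq_nonneg _)
      (fun _ => by rw [Complex.normSq_eq_norm_sq]; exact pow_le_one₀ (norm_nonneg _) hσ)
      (fun a => by
        rw [sub_neg_eq_add, map_mul, Complex.conj_ofReal, ← Complex.mul_conj]
        push_cast
        ring) hs hs
  -- from the sum to the count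
  have hcount : ∀ a, (φ a * φ (a + 1) ≠ 1) → φ a * φ (a + 1) = -1 := by
    intro a hne
    have h1 := hφ a
    have h2 := hφ (a + 1)
    have h3 : (φ a * φ (a + 1) - 1) * (φ a * φ (a + 1) + 1) = 0 := by
      calc _ = (φ a * φ a) * (φ (a + 1) * φ (a + 1)) - 1 := by ring
        _ = 0 := by rw [h1, h2]; ring
    rcases mul_eq_zero.1 h3 with h4 | h4
    · exact absurd (by linarith) hne
    · linarith
  have hc : 2 * (((Ioc u (u + A)).filter (fun a => φ a * φ (a + 1) ≠ 1)).card : ℝ) ≤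
      ∑ a ∈ Ioc u (u + A), (1 - (((φ a * φ (a + 1) : ℝ) : ℂ)).re) := by
    rw [← sum_filter_add_sum_filter_not (Ioc u (u + A)) (fun a => φ a * φ (a + 1) ≠ 1)]
    have e1 : ∑ a ∈ (Ioc u (u + A)).filter (fun a => φ a * φ (a + 1) ≠ 1), (1 - (((φ a * φ (a + 1) : ℝ) : ℂ)).re) =
        2 * (((Ioc u (u + A)).filter (fun a => φ a * φ (a + 1) ≠ 1)).card : ℝ) := by
      rw [sum_congr rfl (g := fun _ => (2 : ℝ)), sum_const, nsmul_eq_mul, mul_comm]
      intro a ha
      rw [Complex.ofReal_re, hcount a (mem_filter.1 ha).2]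
      norm_num
    rw [e1]
    have e2 : 0 ≤ ∑ a ∈ (Ioc u (u + A)).filter (fun a => ¬ (φ a * φ (a + 1) ≠ 1)), (1 - (((φ a * φ (a + 1) : ℝ) : ℂ)).re) := by
      apply sum_nonneg
      intro a ha
      have := (mem_filter.1 ha).2
      push Not at this
      rw [Complex.ofReal_re, this]
      norm_num
    linarith
  have hp' : ∑ a ∈ Ioc u (u + A), (1 - (((φ a * φ (a + 1) : ℝ) : ℂ)).re) ≤ 12 * E + 2 * 1 := by
    simpa using hp
  linarith

/-- no other forms: removing the polynomial phase -/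
lemma base (d : ℕ) : ∃ q : ℕ, 1 ≤ q ∧ ∃ R : ℝ, 1 ≤ R ∧ ∃ D : ℝ, 0 ≤ D ∧ ∀ φ : ℤ → ℝ, (∀ a, φ a * φ a = 1) →
    ∀ (u : ℤ) (A : ℕ) (E : ℝ) (σ : ℂ) (P : Polynomial ℝ), ‖σ‖ ≤ 1 → P.natDegree ≤ d →
    ∑ a ∈ Ioc u (u + A), (1 - (σ * ph P a * (φ a : ℂ)).re) ≤ E →
    (((Ioc u (u + A)).filter (fun a => φ a * φ (a + q) ≠ 1)).card : ℝ) ≤ R * E + D := by
  induction d with
  | zero =>
    refine ⟨1, le_rfl, 6, by norm_num, 1, by norm_num, ?_⟩
    intro φ hφ u A E σ P hσ hP hs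
    have hPc : ∀ a : ℤ, ph P a = ph P 0 := by
      intro a
      unfold ph
      rw [Polynomial.eq_C_of_natDegree_eq_zero (Nat.le_zero.1 hP), Polynomial.eval_C, Polynomial.eval_C]
    have := base0 φ hφ u A E (σ * ph P 0) (by rw [norm_mul, ph_norm, mul_one]; exact hσ) (by
      refine le_trans (le_of_eq ?_) hs
      apply sum_congr rfl
      intro a _
      rw [hPc a])
    simpa using this
  | succ d ih =>
    obtain ⟨q, hq, R, hR, D, hD, H⟩ := ih
    refine ⟨2 * q * 1, by omega, (q * 1 + 1) * (R * 12), ?_, (q * 1 + 1) * (R * 2 + D) + 2 * q * 1, ?_, ?_⟩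
    · have : (0 : ℝ) ≤ q * 1 := by positivity
      nlinarith
    · positivity
    intro φ hφ u A E σ P hσ hP hs
    have hψ : ∀ a, (φ a * φ (a + 1)) * (φ a * φ (a + 1)) = 1 := by
      intro a
      have h1 := hφ a
      have h2 := hφ (a + 1)
      calc (φ a * φ (a + 1)) * (φ a * φ (a + 1)) = (φ a * φ a) * (φ (a + 1) * φ (a + 1)) := by ring
        _ = 1 := by rw [h1, h2]; norm_num
    have hp := pair u A (-1) E (fun a => σ * ph P a * (φ a : ℂ)) (fun a => σ * ph P a * (φ a : ℂ))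
      (fun a => 1 * ph (P - P.comp (Polynomial.X - Polynomial.C ((-1 : ℤ) : ℝ))) a * ((φ a * φ (a + 1) : ℝ) : ℂ)) (fun _ => Complex.normSq σ)
      (fun a => by rw [norm_mul, norm_mul, norm_pm _ (hφ _), mul_one, ph_norm, mul_one]; exact hσ)
      (fun a => by rw [norm_mul, norm_mul, norm_pm _ (hφ _), mul_one, ph_norm, mul_one]; exact hσ)
      (fun a => by rw [norm_mul, norm_mul, norm_pm _ (hψ _), ph_norm, norm_one]; norm_num)
      (fun _ => Complex.normSq_nonneg _)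
      (fun _ => by rw [Complex.normSq_eq_norm_sq]; exact pow_le_one₀ (norm_nonneg _) hσ)
      (fun a => by
        rw [← ph_sub, sub_neg_eq_add, map_mul, map_mul, Complex.conj_ofReal, ← Complex.mul_conj]
        push_cast
        ring) hs hs
    have hp' : ∑ a ∈ Ioc u (u + A), (1 - (1 * ph (P - P.comp (Polynomial.X - Polynomial.C ((-1 : ℤ) : ℝ))) a * ((φ a * φ (a + 1) : ℝ) : ℂ)).re) ≤ 12 * E + 2 := by
      simpa using hp
    have h1 := H (fun a => φ a * φ (a + 1)) hψ u A (12 * E + 2) 1 _ (by rw [norm_one]) (ph_deg' P (-1) d hP) hp'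
    have h2 := unwind φ hφ u A q 1 (R * (12 * E + 2) + D) (by simpa using h1)
    refine h2.trans ?_
    have hE0 : 0 ≤ R * (12 * E + 2) + D := le_trans (Nat.cast_nonneg _) h1
    have hq0 : (0 : ℝ) ≤ q := Nat.cast_nonneg _
    push_cast
    nlinarith

theorem elim (d l : ℕ) : ∀ (β₀ α₀ : ℤ), α₀ ≠ 0 → ∀ (β α : Fin l → ℤ), (∀ j, α j * β₀ ≠ α₀ * β j) → ∀ ε : ℝ, 0 < ε →
    ∃ Q : ℕ, ∃ R : ℝ, 1 ≤ R ∧ ∃ D : ℝ, 0 ≤ D ∧ ∃ ε' : ℝ, 0 < ε' ∧ ∃ X₀ : ℕ,
    ∀ f : ℤ → ℝ, (∀ m, f m * f m = 1) → ∀ g : Fin l → ℤ → ℂ, (∀ j x, ‖g j x‖ ≤ 1) →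
    ∀ X : ℕ, X₀ ≤ X → ∀ (u : ℤ) (A : ℕ) (E : ℝ) (B : Finset ℤ), B ⊆ Icc 1 (X : ℤ) → ε * X ≤ B.card →
    (∀ n ∈ B, ∃ σ : ℂ, ‖σ‖ ≤ 1 ∧ ∃ P : Polynomial ℝ, P.natDegree ≤ d ∧
      ∑ a ∈ Ioc u (u + A), (1 - (σ * ph P a * (f (β₀ * n + α₀ * a) : ℂ) * ∏ j, g j (β j * n + α j * a)).re) ≤ E) →
    ∃ q : ℕ, 1 ≤ q ∧ q ≤ Q ∧ ∃ B' : Finset ℤ, B' ⊆ Icc 1 (X : ℤ) ∧ ε' * X ≤ B'.card ∧
      ∀ n ∈ B', (((Ioc u (u + A)).filter (fun a => f (β₀ * n + α₀ * a) * f (β₀ * n + α₀ * (a + q)) ≠ 1)).card : ℝ) ≤ R * E + D := by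
  induction l with
  | zero =>
    intro β₀ α₀ hα₀ β α _ ε hε
    obtain ⟨q, hq, R, hR, D, hD, H⟩ := base d
    refine ⟨q, R, hR, D, hD, ε, hε, 0, ?_⟩
    intro f hf g hg X _ u A E B hB hBc hn
    refine ⟨q, hq, le_rfl, B, hB, hBc, fun n hnB => ?_⟩
    obtain ⟨σ, hσ, P, hP, hs⟩ := hn n hnB
    exact H (fun a => f (β₀ * n + α₀ * a)) (fun a => hf _) u A E σ P hσ hP (by
      refine le_trans (le_of_eq ?_) hs
      apply sum_congr rfl
      intro a _
      simp)
  | succ l ih =>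
    intro β₀ α₀ hα₀ β α hind ε hε
    rcases eq_or_ne (α 0) 0 with h0 | h0
    · -- the form does not depend on a
      obtain ⟨Q, R, hR, D, hD, ε', hε', X₀, H⟩ := ih β₀ α₀ hα₀ (fun j => β j.succ) (fun j => α j.succ) (fun j => hind j.succ) ε hε
      refine ⟨Q, R, hR, D, hD, ε', hε', X₀, ?_⟩
      intro f hf g hg X hX u A E B hB hBc hn
      refine H f hf (fun j => g j.succ) (fun j x => hg _ _) X hX u A E B hB hBc fun n hnB => ?_
      obtain ⟨σ, hσ, P, hP, hs⟩ := hn n hnB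
      refine ⟨σ * g 0 (β 0 * n), ?_, P, hP, ?_⟩
      · rw [norm_mul]
        exact mul_le_one₀ hσ (norm_nonneg _) (hg _ _)
      · refine le_trans (le_of_eq ?_) hs
        apply sum_congr rfl
        intro a _
        rw [Fin.prod_univ_succ, h0, zero_mul, add_zero]
        congr 2
        ring
    · -- the form depends on a
      obtain ⟨c, hc⟩ : ∃ c : ℤ, c = β₀ * α 0 - α₀ * β 0 := ⟨_, rfl⟩
      have hc0 : c ≠ 0 := by
        rw [hc]
        intro h
        apply hind 0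
        linarith
      obtain ⟨e, he⟩ : ∃ e : ℤ, e = Int.sign c := ⟨_, rfl⟩
      have hec : e * c = c.natAbs := by
        rw [he, ← Int.abs_eq_natAbs]
        exact Int.sign_mul_self_eq_abs c
      have he0 : e ≠ 0 := by
        rw [he]
        exact fun h => hc0 (Int.sign_eq_zero_iff_zero.1 h)
      have he1 : e.natAbs ≤ 1 := by
        rw [he, Int.natAbs_sign]
        split_ifs <;> omega
      obtain ⟨T, c₁, hc₁, hpig⟩ := pig ε hε
      have hM : α₀ * α 0 * e ≠ 0 := mul_ne_zero (mul_ne_zero hα₀ h0) he0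
      obtain ⟨X₁, hpig⟩ := hpig _ hM
      obtain ⟨Q, R, hR, D, hD, ε', hε', X₂, H⟩ := ih β₀ α₀ hα₀ (fun j => β j.succ) (fun j => α j.succ) (fun j => hind j.succ) c₁ hc₁
      obtain ⟨S, hS⟩ : ∃ S : ℕ, S = (β 0 * α₀).natAbs * T := ⟨_, rfl⟩
      obtain ⟨N, hN⟩ : ∃ N : ℕ, N = T * c.natAbs := ⟨_, rfl⟩
      -- q ≤ 2 Q N, error (Q N) (R (12 E + 2 S) + D) + 2 Q N
      refine ⟨2 * Q * N, (Q * N + 1) * (R * 12), ?_, (Q * N + 1) * (R * (2 * S) + D) + 2 * Q * N, ?_, ε', hε', X₁ + X₂, ?_⟩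
      · have : (0 : ℝ) ≤ Q * N := by positivity
        nlinarith
      · have : (0 : ℝ) ≤ Q * N := by positivity
        positivity
      intro f hf g hg X hX u A E B hB hBc hn
      obtain ⟨t, ht1, htT, htc⟩ := hpig X (by omega) B hB hBc
      obtain ⟨h, hh⟩ : ∃ h : ℤ, h = α₀ * α 0 * e * t := ⟨_, rfl⟩
      obtain ⟨s, hs⟩ : ∃ s : ℤ, s = β 0 * α₀ * e * t := ⟨_, rfl⟩
      obtain ⟨τ, hτ⟩ : ∃ τ : ℕ, τ = t * c.natAbs := ⟨_, rfl⟩
      have hs_le : s.natAbs ≤ S := by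
        rw [hs, hS, Int.natAbs_mul, Int.natAbs_mul, Int.natAbs_natCast]
        calc (β 0 * α₀).natAbs * e.natAbs * t ≤ (β 0 * α₀).natAbs * 1 * T :=
              Nat.mul_le_mul (Nat.mul_le_mul_left _ he1) htT
          _ = _ := by ring
      have hτ1 : 1 ≤ τ := by
        rw [hτ]
        have := Int.natAbs_pos.2 hc0
        exact Nat.mul_pos ht1 this
      have hτN : τ ≤ N := by
        rw [hτ, hN]
        exact Nat.mul_le_mul_right _ htT
      have hδ0 : β₀ * h - α₀ * s = α₀ * τ := by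
        rw [hh, hs, hτ]
        push_cast
        rw [← Int.natCast_natAbs, ← hec, hc]
        ring
      have hδJ : β 0 * h - α 0 * s = 0 := by
        rw [hh, hs]; ring
      obtain ⟨f', hf'⟩ : ∃ f' : ℤ → ℝ, f' = fun m => f m * f (m + α₀ * τ) := ⟨_, rfl⟩
      have hf'1 : ∀ m, f' m * f' m = 1 := by
        intro m
        rw [hf']
        have h1 := hf m
        have h2 := hf (m + α₀ * τ)
        calc f m * f (m + α₀ * τ) * (f m * f (m + α₀ * τ)) = (f m * f m) * (f (m + α₀ * τ) * f (m + α₀ * τ)) := by ring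
          _ = 1 := by rw [h1, h2, mul_one]
      obtain ⟨g', hg'⟩ : ∃ g' : Fin l → ℤ → ℂ, g' = fun j x => g j.succ x *
        (starRingEnd ℂ) (g j.succ (x + (β j.succ * h - α j.succ * s))) := ⟨_, rfl⟩
      have hg'1 : ∀ j x, ‖g' j x‖ ≤ 1 := by
        intro j x
        rw [hg', norm_mul, RCLike.norm_conj]
        exact mul_le_one₀ (hg _ _) (norm_nonneg _) (hg _ _)
      obtain ⟨q, hq1, hqQ, B', hB', hB'c, hfin⟩ := H f' hf'1 g' hg'1 X (by omega) u A (12 * E + 2 * S)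
        (B.filter (fun n => n + α₀ * α 0 * e * t ∈ B)) ((filter_subset _ _).trans hB) htc (by
        intro n hn'
        rw [mem_filter, ← hh] at hn'
        obtain ⟨σ, hσ, P, hP, hs1⟩ := hn n hn'.1
        obtain ⟨σ', hσ', P', hP', hs2⟩ := hn (n + h) hn'.2
        refine ⟨σ * (starRingEnd ℂ) σ', ?_, P - P'.comp (Polynomial.X - Polynomial.C (s : ℝ)), ph_deg P P' s d hP hP', ?_⟩
        · rw [norm_mul, RCLike.norm_conj]
          exact mul_le_one₀ hσ (norm_nonneg _) hσ'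
        · have hp := pair u A s E (fun a => σ * ph P a * (f (β₀ * n + α₀ * a) : ℂ) * ∏ j, g j (β j * n + α j * a))
            (fun a => σ' * ph P' a * (f (β₀ * (n + h) + α₀ * a) : ℂ) * ∏ j, g j (β j * (n + h) + α j * a))
            (fun a => σ * (starRingEnd ℂ) σ' * ph (P - P'.comp (Polynomial.X - Polynomial.C (s : ℝ))) a *
              (f' (β₀ * n + α₀ * a) : ℂ) * ∏ j : Fin l, g' j (β j.succ * n + α j.succ * a))
            (fun a => Complex.normSq (g 0 (β 0 * n + α 0 * a)))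
            (fun a => norm_term (σ * ph P a) (by rw [norm_mul, ph_norm, mul_one]; exact hσ) _ (hf _) _ fun j => hg _ _)
            (fun a => norm_term (σ' * ph P' a) (by rw [norm_mul, ph_norm, mul_one]; exact hσ') _ (hf _) _ fun j => hg _ _)
            (fun a => norm_term (σ * (starRingEnd ℂ) σ' * ph (P - P'.comp (Polynomial.X - Polynomial.C (s : ℝ))) a) (by
              rw [norm_mul, ph_norm, mul_one, norm_mul, RCLike.norm_conj]
              exact mul_le_one₀ hσ (norm_nonneg _) hσ') _ (hf'1 _) _ fun j => hg'1 _ _)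
            (fun _ => Complex.normSq_nonneg _)
            (fun _ => by rw [Complex.normSq_eq_norm_sq]; exact pow_le_one₀ (norm_nonneg _) (hg _ _))
            (fun a => by
              have a1 : β₀ * (n + h) + α₀ * (a - s) = β₀ * n + α₀ * a + α₀ * τ := by linarith
              have a2 : β 0 * (n + h) + α 0 * (a - s) = β 0 * n + α 0 * a := by linarith
              have a3 : ∀ j : Fin l, β j.succ * (n + h) + α j.succ * (a - s) =
                β j.succ * n + α j.succ * a + (β j.succ * h - α j.succ * s) := fun j => by ring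
              simp only [Fin.prod_univ_succ, a1, a2, a3, hf', hg', map_mul, map_prod, Complex.conj_ofReal,
                prod_mul_distrib, ← Complex.mul_conj, ← ph_sub]
              push_cast
              ring) hs1 hs2
          refine hp.trans ?_
          have : ((s.natAbs : ℕ) : ℝ) ≤ S := by exact_mod_cast hs_le
          linarith)
      refine ⟨2 * q * τ, ?_, ?_, B', hB', hB'c, fun n hnB => ?_⟩
      · have : 1 ≤ q * τ := Nat.mul_pos hq1 hτ1
        nlinarith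
      · exact Nat.mul_le_mul (Nat.mul_le_mul_left _ hqQ) hτN
      · have h1 := hfin n hnB
        have h2 := unwind (fun a => f (β₀ * n + α₀ * a)) (fun a => hf _) u A q τ (R * (12 * E + 2 * S) + D) (by
          refine le_trans (le_of_eq ?_) h1
          congr 2
          apply filter_congr
          intro a _
          rw [hf']
          have b1 : β₀ * n + α₀ * (a + τ) = β₀ * n + α₀ * a + α₀ * τ := by ring
          have b2 : β₀ * n + α₀ * (a + q + τ) = β₀ * n + α₀ * (a + q) + α₀ * τ := by ring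
          rw [b1, b2])
        refine h2.trans ?_
        have hE0 : 0 ≤ R * (12 * E + 2 * S) + D := le_trans (Nat.cast_nonneg _) h1
        have hqt : (q : ℝ) * τ ≤ Q * N := by exact_mod_cast Nat.mul_le_mul hqQ hτN
        nlinarith [mul_le_mul_of_nonneg_right hqt hE0]

end Pool.Agent.Helper80.AN
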