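import Pool.Graph.R_seed8.TH823.MRS.Fun

set_option autoImplicit false

/-! The Liouville function on short progressions, on average. -/

namespace Pool.Agent.Helper80.AN

open Finset Pool.Agent.H376R2.MR Pool.Agent.H970R2.X Pool.Agent.TH823.MRS

/-- the window of `n` -/
def WW (X q k b n : ℕ) : Finset ℕ := (Icc 1 X).filter (fun m => m % q = b ∧ m ≤ n ∧ n < m + k * q)

lemma WW_card (X q k b n : ℕ) (hq : 1 ≤ q) : (WW X q k b n).card ≤ k := by
  refine le_trans (card_le_card_of_injOn (t := range k) (fun m => (n - m) / q) ?_ ?_) (card_range k).le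
  · intro m hm
    unfold WW at hm
    rw [mem_coe, mem_filter] at hm
    rw [mem_coe, mem_range, Nat.div_lt_iff_lt_mul hq]
    omega
  · intro m hm m' hm' h
    unfold WW at hm hm'
    rw [mem_coe, mem_filter] at hm hm'
    simp only at h
    have e1 := Nat.div_add_mod (n - m) q
    have e2 := Nat.div_add_mod (n - m') q
    have e3 : (n - m) % q = (n - m') % q := by
      have h1 : (m : ℤ) % q = (m' : ℤ) % q := by
        exact_mod_cast hm.2.1.trans hm'.2.1.symm
      have h2 : ((n : ℤ) - m) % q = ((n : ℤ) - m') % q := Int.ModEq.sub_left (n : ℤ) h1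
      rw [← Nat.cast_sub hm.2.2.1, ← Nat.cast_sub hm'.2.2.1] at h2
      exact_mod_cast h2
    rw [h, e3] at e1
    omega

lemma WW_sdiff (X q k b n n' : ℕ) (h : n ≤ n') : (WW X q k b n \ WW X q k b n').card ≤ n' - n := by
  rw [← Nat.card_Ioc n n']
  apply card_le_card_of_injOn (fun m => m + k * q)
  · intro m hm
    rw [mem_coe, mem_sdiff] at hm
    unfold WW at hm
    simp only [mem_filter, not_and, not_lt] at hm
    have := hm.2 hm.1.1 hm.1.2.1 (by omega)
    simp only [mem_coe, mem_Ioc]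
    omega
  · intro m _ m' _ hmm
    simpa using hmm

lemma WW_sdiff' (X q k b n n' : ℕ) (h : n ≤ n') : (WW X q k b n' \ WW X q k b n).card ≤ n' - n := by
  rw [← Nat.card_Ioc n n']
  apply card_le_card
  intro m hm
  rw [mem_sdiff] at hm
  unfold WW at hm
  simp only [mem_filter, not_and, not_lt] at hm
  rw [mem_Ioc]
  by_contra hc
  have := hm.2 hm.1.1 hm.1.2.1
  omega

theorem mrq (q : ℕ) (hq : 1 ≤ q) (κ : ℝ) (hκ : 0 < κ) : ∃ k₀ : ℕ, ∀ k : ℕ, k₀ ≤ k → ∃ X₀ : ℕ, ∀ X : ℕ, X₀ ≤ X →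
    ∑ m ∈ Icc 1 X, |∑ i ∈ range k, (lam (m + q * i) : ℝ)| ≤ κ * k * X := by
  have hq0 : (0 : ℝ) < q := by exact_mod_cast hq
  have hns : ∀ b : ℕ, ∃ H₀ : ℝ, ∃ X₀ : ℕ, ∀ X : ℕ, X₀ ≤ X → ∀ H : ℝ, H₀ ≤ H → H ≤ X → ∀ T : ℕ → ℂ,
      (∀ n : ℕ, ‖T n‖ ≤ H) → (∀ n m : ℕ, ‖T n - T m‖ ≤ 2 * |(n : ℝ) - m|) → (∀ n : ℕ, 3 * X < n → T n = 0) →
      ‖∑ n ∈ Icc 1 (3 * X), (rs lam q b n : ℂ) * T n‖ ≤ (κ / q) * H * X := by
    intro b
    have hb' : Bdd (rs lam q b) := by
      intro n
      unfold rs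
      split_ifs
      · exact lam_bdd n
      · simp
    exact nat_sum (rs lam q b) hb' (mrk_of lam lam_bdd lam_flip lam_sup q b hq) (κ / q) (by positivity) 2 (by norm_num)
  choose H₀f X₀f hns using hns
  refine ⟨⌈∑ b ∈ range q, |H₀f b|⌉₊, fun k hk => ⟨(∑ b ∈ range q, X₀f b) + k * q + k + 1, fun X hX => ?_⟩⟩
  have hkq : k * q ≤ X := by omega
  obtain ⟨S, hS⟩ : ∃ S : ℕ → ℝ, S = fun m => ∑ i ∈ range k, (lam (m + q * i) : ℝ) := ⟨_, rfl⟩
  obtain ⟨sg, hsg⟩ : ∃ sg : ℕ → ℝ, sg = fun m => if 0 ≤ S m then 1 else -1 := ⟨_, rfl⟩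
  have hsg1 : ∀ m, |sg m| = 1 := by
    intro m
    rw [hsg]
    dsimp only
    split_ifs <;> simp
  have habs : ∀ m, |S m| = sg m * S m := by
    intro m
    rw [hsg]
    dsimp only
    split_ifs with h
    · rw [abs_of_nonneg h, one_mul]
    · rw [abs_of_neg (not_le.1 h)]; ring
  obtain ⟨T, hT⟩ : ∃ T : ℕ → ℕ → ℂ, T = fun b n => ∑ m ∈ WW X q k b n, (sg m : ℂ) := ⟨_, rfl⟩
  have hsgn : ∀ m, ‖(sg m : ℂ)‖ = 1 := by
    intro m
    rw [Complex.norm_real, Real.norm_eq_abs, hsg1]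
  have hT1 : ∀ b n, ‖T b n‖ ≤ (k : ℝ) := by
    intro b n
    rw [hT]
    refine (norm_sum_le _ _).trans ?_
    rw [sum_congr rfl (fun m _ => hsgn m), sum_const, nsmul_eq_mul, mul_one]
    exact_mod_cast WW_card X q k b n hq
  have hT2' : ∀ b n n', n ≤ n' → ‖T b n - T b n'‖ ≤ 2 * ((n' : ℝ) - n) := by
    intro b n n' h
    rw [hT]
    dsimp only
    rw [← sum_sdiff_sub_sum_sdiff]
    refine (norm_sub_le _ _).trans ?_
    have e1 : ‖∑ m ∈ WW X q k b n \ WW X q k b n', (sg m : ℂ)‖ ≤ (n' : ℝ) - n := by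
      refine (norm_sum_le _ _).trans ?_
      rw [sum_congr rfl (fun m _ => hsgn m), sum_const, nsmul_eq_mul, mul_one, ← Nat.cast_sub h]
      exact_mod_cast WW_sdiff X q k b n n' h
    have e2 : ‖∑ m ∈ WW X q k b n' \ WW X q k b n, (sg m : ℂ)‖ ≤ (n' : ℝ) - n := by
      refine (norm_sum_le _ _).trans ?_
      rw [sum_congr rfl (fun m _ => hsgn m), sum_const, nsmul_eq_mul, mul_one, ← Nat.cast_sub h]
      exact_mod_cast WW_sdiff' X q k b n n' h
    linarith
  have hT2 : ∀ b n n', ‖T b n - T b n'‖ ≤ 2 * |(n : ℝ) - n'| := by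
    intro b n n'
    rcases le_total n n' with h | h
    · have h1 := hT2' b n n' h
      rwa [abs_sub_comm, abs_of_nonneg (sub_nonneg.2 (by exact_mod_cast h : (n : ℝ) ≤ n'))]
    · have h1 := hT2' b n' n h
      rw [norm_sub_rev]
      rwa [abs_of_nonneg (sub_nonneg.2 (by exact_mod_cast h : (n' : ℝ) ≤ n))]
  have hT3 : ∀ b n, 3 * X < n → T b n = 0 := by
    intro b n hn
    rw [hT]
    dsimp only
    have : WW X q k b n = ∅ := by
      unfold WW
      apply filter_false_of_mem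
      intro m hm
      have := mem_Icc.1 hm
      omega
    rw [this, sum_empty]
  have hk0 : ∑ b ∈ range q, |H₀f b| ≤ k := (Nat.le_ceil _).trans (by exact_mod_cast hk)
  have hb : ∀ b ∈ range q, ‖∑ n ∈ Icc 1 (3 * X), (rs lam q b n : ℂ) * T b n‖ ≤ (κ / q) * k * X := by
    intro b hbq
    apply hns b X _ k _ _ (T b) (hT1 b) (hT2 b) (hT3 b)
    · have := single_le_sum (f := X₀f) (fun i _ => Nat.zero_le _) hbq
      omega
    · have h1 := single_le_sum (f := fun b => |H₀f b|) (fun i _ => abs_nonneg _) hbq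
      exact (le_abs_self _).trans (h1.trans hk0)
    · exact_mod_cast (by omega : k ≤ X)
  -- the identity
  have hSm : ∀ m ∈ Icc 1 X, S m = ∑ n ∈ (Icc 1 (3 * X)).filter (fun n => n % q = m % q ∧ m ≤ n ∧ n < m + k * q), (lam n : ℝ) := by
    intro m hm
    have hm' := mem_Icc.1 hm
    have : (Icc 1 (3 * X)).filter (fun n => n % q = m % q ∧ m ≤ n ∧ n < m + k * q) = (range k).image (fun i => m + q * i) := by
      ext n
      rw [mem_filter, mem_image, mem_Icc]
      constructor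
      · rintro ⟨h1, h2, h3, h4⟩
        refine ⟨(n - m) / q, ?_, ?_⟩
        · rw [mem_range, Nat.div_lt_iff_lt_mul hq]
          omega
        · have h5 : q ∣ n - m := (Nat.modEq_iff_dvd' h3).1 h2.symm
          rw [Nat.mul_div_cancel' h5]
          omega
      · rintro ⟨i, hi, rfl⟩
        rw [mem_range] at hi
        have h1 : q * i < k * q := by
          rw [mul_comm]; exact Nat.mul_lt_mul_of_pos_right hi hq
        refine ⟨⟨by omega, by omega⟩, by simp, by omega, by omega⟩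
    rw [this, sum_image, hS]
    intro i _ j _ hij
    have h2 : q * i = q * j := by simpa using hij
    exact Nat.eq_of_mul_eq_mul_left hq h2
  have hid : ((∑ m ∈ Icc 1 X, |S m| : ℝ) : ℂ) = ∑ b ∈ range q, ∑ n ∈ Icc 1 (3 * X), (rs lam q b n : ℂ) * T b n := by
    have e1 : ∀ m ∈ Icc 1 X, ((|S m| : ℝ) : ℂ) = ∑ b ∈ range q, ∑ n ∈ Icc 1 (3 * X),
        (rs lam q b n : ℂ) * (if m % q = b ∧ m ≤ n ∧ n < m + k * q then (sg m : ℂ) else 0) := by
      intro m hm
      rw [habs m, hSm m hm]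
      rw [sum_eq_single (s := range q) (m % q)]
      · push_cast
        rw [sum_filter, mul_sum]
        apply sum_congr rfl
        intro n _
        unfold rs
        by_cases h1 : n % q = m % q
        · by_cases h2 : m ≤ n ∧ n < m + k * q
          · rw [if_pos ⟨h1, h2⟩, if_pos h1, if_pos ⟨rfl, h2⟩]; ring
          · have h3 : ¬ (n % q = m % q ∧ m ≤ n ∧ n < m + k * q) := fun h => h2 h.2
            have h4 : ¬ (m % q = m % q ∧ m ≤ n ∧ n < m + k * q) := fun h => h2 h.2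
            rw [if_neg h3, if_neg h4]; simp
        · have h3 : ¬ (n % q = m % q ∧ m ≤ n ∧ n < m + k * q) := fun h => h1 h.1
          rw [if_neg h3, if_neg h1]; simp
      · intro b _ hbm
        apply sum_eq_zero
        intro n _
        rw [if_neg (fun h => hbm h.1.symm), mul_zero]
      · intro h
        exact absurd (mem_range.2 (Nat.mod_lt _ hq)) h
    push_cast
    push_cast at e1
    rw [sum_congr rfl e1, sum_comm]
    apply sum_congr rfl
    intro b _
    rw [sum_comm]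
    apply sum_congr rfl
    intro n _
    rw [← mul_sum, hT]
    dsimp only
    unfold WW
    rw [sum_filter]
  have hfin : ‖((∑ m ∈ Icc 1 X, |S m| : ℝ) : ℂ)‖ ≤ κ * k * X := by
    rw [hid]
    refine (norm_sum_le _ _).trans ((sum_le_sum hb).trans (le_of_eq ?_))
    rw [sum_const, card_range, nsmul_eq_mul]
    field_simp
  rw [Complex.norm_real, Real.norm_eq_abs] at hfin
  have := (le_abs_self _).trans hfin
  rw [hS] at this
  exact this

end Pool.Agent.Helper80.AN
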