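import Pool.Agent.Helper80.AN.Rec
import Pool.Agent.Helper80.AN.MRq

set_option autoImplicit false

/-! Anchored patterns: the main theorem. -/

namespace Pool.Agent.Helper80.AN

open Finset

/-- the Liouville function of the absolute value (with value `1` at `0`) -/
noncomputable def liou (m : ℤ) : ℝ := (-1) ^ ArithmeticFunction.cardFactors m.natAbs

lemma liou_sq (m : ℤ) : liou m * liou m = 1 := by
  unfold liou
  rw [← mul_pow]; norm_num

lemma liou_neg (m : ℤ) : liou (-m) = liou m := by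
  unfold liou
  rw [Int.natAbs_neg]

lemma liou_nat (m : ℕ) : liou (m : ℤ) = (Pool.Agent.H376R2.MR.lam m : ℝ) := by
  unfold liou Pool.Agent.H376R2.MR.lam
  rw [Int.natAbs_natCast]
  push_cast
  rfl

lemma liou_abs_le (k : ℕ) (F : ℕ → ℝ) (hF : ∀ i, F i * F i = 1) : |∑ i ∈ range k, F i| ≤ k := by
  refine (abs_sum_le_sum_abs _ _).trans ?_
  have : ∀ i ∈ range k, |F i| ≤ 1 := by
    intro i _
    have h := hF i
    have : |F i| * |F i| = 1 := by rw [← abs_mul, h, abs_one]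
    nlinarith [abs_nonneg (F i)]
  refine (sum_le_sum this).trans ?_
  rw [sum_const, card_range, nsmul_eq_mul, mul_one]

theorem mrz (Q : ℕ) (κ : ℝ) (hκ : 0 < κ) : ∃ k : ℕ, 1 ≤ k ∧ ∃ N₀ : ℕ, ∀ N : ℕ, N₀ ≤ N → ∀ r : ℤ, r ≠ 0 → r.natAbs ≤ Q →
    ∑ m ∈ Icc (-(N : ℤ)) N, |∑ i ∈ range k, liou (m + r * i)| ≤ κ * k * N := by
  have h1 : ∀ q : ℕ, ∃ k₀ : ℕ, 1 ≤ q → ∀ k : ℕ, k₀ ≤ k → ∃ X₀ : ℕ, ∀ X : ℕ, X₀ ≤ X →
      ∑ m ∈ Icc 1 X, |∑ i ∈ range k, (Pool.Agent.H376R2.MR.lam (m + q * i) : ℝ)| ≤ κ / 4 * k * X := by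
    intro q
    rcases Nat.eq_zero_or_pos q with h | h
    · exact ⟨0, fun h' => by omega⟩
    · obtain ⟨k₀, hk⟩ := mrq q h (κ / 4) (by positivity)
      exact ⟨k₀, fun _ => hk⟩
  choose k₀ h1 using h1
  obtain ⟨k, hk⟩ : ∃ k : ℕ, k = (∑ q ∈ range (Q + 1), k₀ q) + 1 := ⟨_, rfl⟩
  have h2 : ∀ q : ℕ, ∃ X₀ : ℕ, 1 ≤ q → q ≤ Q → ∀ X : ℕ, X₀ ≤ X →
      ∑ m ∈ Icc 1 X, |∑ i ∈ range k, (Pool.Agent.H376R2.MR.lam (m + q * i) : ℝ)| ≤ κ / 4 * k * X := by
    intro q
    by_cases h : 1 ≤ q ∧ q ≤ Q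
    · have hs := single_le_sum (f := k₀) (s := range (Q + 1)) (fun i _ => Nat.zero_le _) (mem_range.2 (by omega : q < Q + 1))
      obtain ⟨X₀, h3⟩ := h1 q h.1 k (by omega)
      exact ⟨X₀, fun _ _ => h3⟩
    · exact ⟨0, fun h3 h4 => absurd ⟨h3, h4⟩ h⟩
  choose X₀ h2 using h2
  refine ⟨k, by omega, (∑ q ∈ range (Q + 1), X₀ q) + ⌈2 * (k * Q + 1) / κ⌉₊, fun N hN r hr hrQ => ?_⟩
  -- positive step
  have hpos : ∀ q : ℕ, 1 ≤ q → q ≤ Q → ∑ m ∈ Icc (-(N : ℤ)) N, |∑ i ∈ range k, liou (m + q * i)| ≤ κ * k * N := by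
    intro q hq1 hqQ
    have hs := single_le_sum (f := X₀) (s := range (Q + 1)) (fun i _ => Nat.zero_le _) (mem_range.2 (by omega : q < Q + 1))
    have h3 := h2 q hq1 hqQ N (by omega)
    obtain ⟨G, hG⟩ : ∃ G : ℤ → ℝ, G = fun m => |∑ i ∈ range k, liou (m + q * i)| := ⟨_, rfl⟩
    have hG0 : ∀ m, 0 ≤ G m := by intro m; rw [hG]; exact abs_nonneg _
    have hGk : ∀ m, G m ≤ k := by
      intro m; rw [hG]
      exact liou_abs_le k (fun i => liou (m + q * i)) (fun i => liou_sq _)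
    have hsub : Icc (-(N : ℤ)) N ⊆ (Icc 1 N).image (fun m : ℕ => (m : ℤ)) ∪ (Icc (-(k * q : ℕ) : ℤ) 0 ∪
        (Icc 1 N).image (fun m : ℕ => -(m : ℤ) - ((k - 1 : ℕ) : ℤ) * q)) := by
      intro m hm
      rw [mem_Icc] at hm
      rw [mem_union, mem_union, mem_image, mem_image, mem_Icc]
      by_cases c1 : 1 ≤ m
      · left
        refine ⟨m.toNat, ?_, by omega⟩
        rw [mem_Icc]; omega
      · right
        by_cases c2 : (-(k * q : ℕ) : ℤ) ≤ m
        · left; exact ⟨c2, by omega⟩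
        · right
          have c3 : ((k - 1 : ℕ) : ℤ) * q ≤ ((k * q : ℕ) : ℤ) := by
            push_cast
            apply mul_le_mul_of_nonneg_right _ (by positivity)
            exact_mod_cast Nat.sub_le k 1
          have c4 : (0 : ℤ) ≤ ((k - 1 : ℕ) : ℤ) * q := by positivity
          refine ⟨(-m - ((k - 1 : ℕ) : ℤ) * q).toNat, ?_, ?_⟩
          · rw [mem_Icc]
            generalize ((k - 1 : ℕ) : ℤ) * q = z at *
            generalize ((k * q : ℕ) : ℤ) = y at *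
            omega
          · generalize ((k - 1 : ℕ) : ℤ) * q = z at *
            generalize ((k * q : ℕ) : ℤ) = y at *
            omega
    have e0 : ∑ m ∈ Icc (-(N : ℤ)) N, G m ≤ ∑ m ∈ (Icc 1 N).image (fun m : ℕ => (m : ℤ)), G m +
        (∑ m ∈ Icc (-(k * q : ℕ) : ℤ) 0, G m + ∑ m ∈ (Icc 1 N).image (fun m : ℕ => -(m : ℤ) - ((k - 1 : ℕ) : ℤ) * q), G m) := by
      refine (sum_le_sum_of_subset_of_nonneg hsub (fun m _ _ => hG0 m)).trans ?_
      have u1 : ∀ (s t : Finset ℤ), ∑ m ∈ s ∪ t, G m ≤ ∑ m ∈ s, G m + ∑ m ∈ t, G m := by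
        intro s t
        rw [← sum_union_inter]
        have : 0 ≤ ∑ m ∈ s ∩ t, G m := sum_nonneg fun m _ => hG0 m
        linarith
      refine (u1 _ _).trans ?_
      have := u1 (Icc (-(k * q : ℕ) : ℤ) 0) ((Icc 1 N).image (fun m : ℕ => -(m : ℤ) - ((k - 1 : ℕ) : ℤ) * q))
      linarith
    have e1 : ∑ m ∈ (Icc 1 N).image (fun m : ℕ => (m : ℤ)), G m ≤ κ / 4 * k * N := by
      rw [sum_image (fun a _ b _ h => by simpa using h)]
      refine le_trans (le_of_eq ?_) h3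
      apply sum_congr rfl
      intro m _
      rw [hG]
      dsimp only
      congr 1
      apply sum_congr rfl
      intro i _
      rw [← liou_nat]
      push_cast; rfl
    have e2 : ∑ m ∈ (Icc 1 N).image (fun m : ℕ => -(m : ℤ) - ((k - 1 : ℕ) : ℤ) * q), G m ≤ κ / 4 * k * N := by
      rw [sum_image (fun a _ b _ h => by simpa using h)]
      refine le_trans (le_of_eq ?_) h3
      apply sum_congr rfl
      intro m _
      rw [hG]
      dsimp only
      congr 1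
      rw [← sum_range_reflect]
      apply sum_congr rfl
      intro i hi
      rw [mem_range] at hi
      rw [← liou_nat, ← liou_neg]
      congr 1
      have : ((k - 1 - i : ℕ) : ℤ) = ((k - 1 : ℕ) : ℤ) - i := by
        rw [Nat.cast_sub (by omega)]
      rw [this]
      push_cast
      ring
    have e3 : ∑ m ∈ Icc (-(k * q : ℕ) : ℤ) 0, G m ≤ κ / 2 * k * N := by
      refine (sum_le_sum fun m _ => hGk m).trans ?_
      rw [sum_const, nsmul_eq_mul, Int.card_Icc]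
      have : (0 + 1 - (-(k * q : ℕ) : ℤ)).toNat = k * q + 1 := by
        have : (0 + 1 - (-(k * q : ℕ) : ℤ)) = ((k * q + 1 : ℕ) : ℤ) := by push_cast; ring
        rw [this, Int.toNat_natCast]
      rw [this]
      have h5 : 2 * ((k : ℝ) * Q + 1) / κ ≤ N := by
        refine (Nat.le_ceil _).trans ?_
        exact_mod_cast (by omega : ⌈2 * ((k : ℝ) * Q + 1) / κ⌉₊ ≤ N)
      rw [div_le_iff₀ hκ] at h5
      have h6 : ((k * q + 1 : ℕ) : ℝ) ≤ (k : ℝ) * Q + 1 := by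
        exact_mod_cast Nat.add_le_add_right (Nat.mul_le_mul_left _ hqQ) 1
      have h7 : (0 : ℝ) ≤ k := Nat.cast_nonneg _
      nlinarith [mul_le_mul_of_nonneg_right h6 h7, mul_le_mul_of_nonneg_right h5 h7]
    rw [hG] at e0 e1 e2 e3
    linarith
  rcases lt_or_gt_of_ne hr with h | h
  · -- negative step
    have := hpos r.natAbs (Int.natAbs_pos.2 hr) hrQ
    refine le_trans (le_of_eq ?_) this
    apply sum_nbij' (fun m => -m) (fun m => -m)
    · intro m hm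
      rw [mem_Icc] at hm ⊢
      omega
    · intro m hm
      rw [mem_Icc] at hm ⊢
      omega
    · intro m _; ring
    · intro m _; ring
    · intro m _
      congr 1
      apply sum_congr rfl
      intro i _
      rw [← liou_neg]
      congr 1
      have : (r.natAbs : ℤ) = -r := by omega
      rw [this]; ring
  · have := hpos r.natAbs (Int.natAbs_pos.2 hr) hrQ
    have e : (r.natAbs : ℤ) = r := by omega
    rwa [e] at this

theorem main (β₀ α₀ ρ : ℤ) (hβ₀ : β₀ ≠ 0) (hα₀ : α₀ ≠ 0) (S : Finset ℤ) (hS : S.Nonempty) (l : ℕ) (β α : Fin l → ℤ)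
    (hind : ∀ j, α j * β₀ ≠ α₀ * β j) (d : ℕ) (ε : ℝ) (hε : 0 < ε) (K : ℕ) :
    ∃ η : ℝ, 0 < η ∧ ∃ A₀ : ℕ, ∀ (X A : ℕ) (u : ℤ), A₀ ≤ A → A ≤ K * X → |u| ≤ K * X →
      ∀ g : Fin l → ℤ → ℂ, (∀ j x, ‖g j x‖ ≤ 1) → ∀ P : ℤ → Polynomial ℝ, (∀ n, (P n).natDegree ≤ d) →
      (((Icc (1 : ℤ) X).filter (fun n => (1 - η) * A <
        ‖∑ a ∈ Ioc u (u + A), ((∏ s ∈ S, liou (β₀ * n + α₀ * (a + s) + ρ) : ℝ) : ℂ) * ph (P n) a *
          ∏ j, g j (β j * n + α j * a)‖)).card : ℝ) ≤ ε * X := by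
  obtain ⟨Q, R, hR, D, hD, ε', hε', X₁, H⟩ := elim d l β₀ α₀ hα₀ β α hind ε hε
  obtain ⟨N, hN1, K₁, hK₁, hrec⟩ := recper S hS Q
  obtain ⟨C, hC⟩ : ∃ C : ℕ, C = β₀.natAbs + 2 * K * α₀.natAbs + ρ.natAbs := ⟨_, rfl⟩
  have hC1 : 1 ≤ C := by
    have := Int.natAbs_pos.2 hβ₀
    omega
  have hC0 : (0 : ℝ) < C := by exact_mod_cast hC1
  obtain ⟨k, hk1, N₀, hmr⟩ := mrz (α₀.natAbs * N) (ε' / (4 * C)) (by positivity)
  have hk0 : (0 : ℝ) < k := by exact_mod_cast hk1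
  have hk1r : (1 : ℝ) ≤ k := by exact_mod_cast hk1
  have hR0 : (0 : ℝ) < R := by linarith
  have hK₁0 : (0 : ℝ) < K₁ := by exact_mod_cast hK₁
  have hK₁1 : (1 : ℝ) ≤ K₁ := by exact_mod_cast hK₁
  refine ⟨1 / (4 * k * K₁ * R), by positivity, ⌈4 * (k * (K₁ * D + K₁) + k * N)⌉₊ + K * (X₁ + N₀) + 1,
    fun X A u hA hAK hu g hg P hP => ?_⟩
  by_contra hcon
  rw [not_le] at hcon
  obtain ⟨f, hf⟩ : ∃ f : ℤ → ℝ, f = fun m => ∏ s ∈ S, liou (m + α₀ * s + ρ) := ⟨_, rfl⟩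
  have hf1 : ∀ m, f m * f m = 1 := by
    intro m
    rw [hf]
    dsimp only
    rw [← prod_mul_distrib]
    exact prod_eq_one fun s _ => liou_sq _
  have hfL : ∀ n a : ℤ, ∏ s ∈ S, liou (β₀ * n + α₀ * (a + s) + ρ) = f (β₀ * n + α₀ * a) := by
    intro n a
    rw [hf]
    apply prod_congr rfl
    intro s _
    congr 1
    ring
  simp only [hfL] at hcon
  obtain ⟨B, hB⟩ : ∃ B : Finset ℤ, B = (Icc (1 : ℤ) X).filter (fun n => (1 - 1 / (4 * k * K₁ * R)) * A <
        ‖∑ a ∈ Ioc u (u + A), (f (β₀ * n + α₀ * a) : ℂ) * ph (P n) a * ∏ j, g j (β j * n + α j * a)‖) := ⟨_, rfl⟩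
  rw [← hB] at hcon
  have hX : X₁ + N₀ < X := by
    by_contra h
    have := Nat.mul_le_mul_left K (not_lt.1 h)
    omega
  have hA1 : 1 ≤ A := by omega
  have hA0 : (0 : ℝ) < A := by exact_mod_cast hA1
  have hX0 : (0 : ℝ) < X := by exact_mod_cast (by omega : 0 < X)
  have hcardW : ((Ioc u (u + (A : ℤ))).card : ℝ) = A := by
    rw [Int.card_Ioc, add_sub_cancel_left, Int.toNat_natCast]
  have hgood : ∀ n ∈ B, ∃ σ : ℂ, ‖σ‖ ≤ 1 ∧ ∃ P : Polynomial ℝ, P.natDegree ≤ d ∧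
      ∑ a ∈ Ioc u (u + A), (1 - (σ * ph P a * (f (β₀ * n + α₀ * a) : ℂ) * ∏ j, g j (β j * n + α j * a)).re) ≤
        1 / (4 * k * K₁ * R) * A := by
    intro n hn
    rw [hB, mem_filter] at hn
    obtain ⟨T, hT⟩ : ∃ T : ℂ, T = ∑ a ∈ Ioc u (u + A), (f (β₀ * n + α₀ * a) : ℂ) * ph (P n) a * ∏ j, g j (β j * n + α j * a) := ⟨_, rfl⟩
    rw [← hT] at hn
    rcases eq_or_ne T 0 with h0 | h0
    · exfalso
      have h1 := hn.2
      rw [h0, norm_zero] at h1
      have h2 : 1 / (4 * k * K₁ * R) ≤ 1 := by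
        rw [div_le_one (by positivity)]
        have e1 : (1 : ℝ) ≤ k * K₁ := by nlinarith
        nlinarith
      nlinarith
    · refine ⟨(starRingEnd ℂ) T / (‖T‖ : ℂ), ?_, P n, hP n, ?_⟩
      · rw [norm_div, RCLike.norm_conj, Complex.norm_real, norm_norm, div_self (norm_ne_zero_iff.2 h0)]
      · rw [sum_sub_distrib, sum_const, nsmul_eq_mul, mul_one, hcardW]
        have e1 : ∑ a ∈ Ioc u (u + A), ((starRingEnd ℂ) T / (‖T‖ : ℂ) * ph (P n) a * (f (β₀ * n + α₀ * a) : ℂ) * ∏ j, g j (β j * n + α j * a)).re = ‖T‖ := by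
          rw [← Complex.re_sum]
          have gen : ∀ w : ℂ, ∑ a ∈ Ioc u (u + A), (w * ph (P n) a * (f (β₀ * n + α₀ * a) : ℂ) * ∏ j, g j (β j * n + α j * a)) = w * T := by
            intro w
            rw [hT, mul_sum]
            apply sum_congr rfl
            intro a _
            ring
          rw [gen]
          have hS0 : (‖T‖ : ℂ) ≠ 0 := by
            exact_mod_cast norm_ne_zero_iff.2 h0
          have : (starRingEnd ℂ) T / (‖T‖ : ℂ) * T = (‖T‖ : ℂ) := by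
            rw [div_mul_eq_mul_div, mul_comm, Complex.mul_conj, div_eq_iff hS0, Complex.normSq_eq_norm_sq]
            push_cast; ring
          rw [this, Complex.ofReal_re]
        rw [e1]
        linarith [hn.2]
  obtain ⟨q, hq1, hqQ, B', hB', hB'c, hfin⟩ := H f hf1 g hg X (by omega) u A (1 / (4 * k * K₁ * R) * A) B
    (by rw [hB]; exact filter_subset _ _) hcon.le hgood
  -- lower bound
  have hlow : ∀ n ∈ B', (k : ℝ) * A / 2 ≤ ∑ a ∈ Ioc u (u + A), |∑ i ∈ range k, liou ((β₀ * n + α₀ * a + ρ) + (α₀ * N) * i)| := by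
    intro n hn
    have h0 := hrec (fun a => liou (β₀ * n + α₀ * a + ρ)) (fun a => liou_sq _) q hq1 hqQ u A
      (R * (1 / (4 * k * K₁ * R) * A) + D) (by
        refine le_trans (le_of_eq ?_) (hfin n hn)
        congr 2
        apply filter_congr
        intro a _
        rw [← hfL, ← hfL])
    have h1 := longrun (fun a => liou (β₀ * n + α₀ * a + ρ)) (fun a => liou_sq _) u A N k _ h0
    have h2 : ∑ a ∈ Ioc u (u + A), |∑ i ∈ range k, liou (β₀ * n + α₀ * (a + N * i) + ρ)| =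
        ∑ a ∈ Ioc u (u + A), |∑ i ∈ range k, liou ((β₀ * n + α₀ * a + ρ) + (α₀ * N) * i)| := by
      apply sum_congr rfl
      intro a _
      congr 1
      apply sum_congr rfl
      intro i _
      congr 1
      ring
    rw [h2] at h1
    refine le_trans ?_ h1
    have h3 : 4 * (k * (K₁ * D + K₁) + k * N) ≤ (A : ℝ) := by
      refine (Nat.le_ceil _).trans ?_
      exact_mod_cast (by omega : ⌈4 * (k * (K₁ * D + K₁) + k * N)⌉₊ ≤ A)
    have h4 : (k : ℝ) * (K₁ * (R * (1 / (4 * k * K₁ * R) * A) + D) + K₁) = A / 4 + k * (K₁ * D + K₁) := by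
      field_simp
      ring
    rw [h4]
    have h6 : (A : ℝ) / 2 ≤ A - (A / 4 + k * (K₁ * D + K₁)) - k * N := by linarith
    calc (k : ℝ) * A / 2 = k * (A / 2) := by ring
      _ ≤ _ := mul_le_mul_of_nonneg_left h6 hk0.le
  have hr0 : α₀ * (N : ℤ) ≠ 0 := mul_ne_zero hα₀ (by exact_mod_cast (by omega : N ≠ 0))
  have hrQ : (α₀ * (N : ℤ)).natAbs ≤ α₀.natAbs * N := by
    rw [Int.natAbs_mul, Int.natAbs_natCast]
  have hN : N₀ ≤ C * X := by
    have : 1 * X ≤ C * X := Nat.mul_le_mul_right _ hC1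
    omega
  have hup := hmr (C * X) hN (α₀ * N) hr0 hrQ
  have hupa : ∀ a ∈ Ioc u (u + A), ∑ n ∈ B', |∑ i ∈ range k, liou ((β₀ * n + α₀ * a + ρ) + (α₀ * N) * i)| ≤
      ε' / (4 * C) * k * (C * X : ℕ) := by
    intro a ha
    refine le_trans ?_ hup
    rw [mem_Ioc] at ha
    have hinj : ∀ n ∈ B', ∀ n' ∈ B', β₀ * n + α₀ * a + ρ = β₀ * n' + α₀ * a + ρ → n = n' := by
      intro n _ n' _ h
      exact mul_left_cancel₀ hβ₀ (by linarith)
    rw [← sum_image (f := fun m : ℤ => |∑ i ∈ range k, liou (m + (α₀ * N) * i)|) (g := fun n : ℤ => β₀ * n + α₀ * a + ρ) hinj]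
    apply sum_le_sum_of_subset_of_nonneg
    · intro m hm
      rw [mem_image] at hm
      obtain ⟨n, hn, rfl⟩ := hm
      have hn1 := mem_Icc.1 (hB' hn)
      rw [mem_Icc, ← abs_le]
      have ha1 : |a| ≤ 2 * K * X := by
        have hu' := abs_le.1 hu
        have hAK' : (A : ℤ) ≤ K * X := by exact_mod_cast hAK
        rw [abs_le]
        constructor <;> nlinarith [hu'.1, hu'.2, ha.1, ha.2]
      have hn2 : |n| ≤ X := by
        rw [abs_le]; constructor <;> linarith [hn1.1, hn1.2]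
      have hX1 : (1 : ℤ) ≤ X := by exact_mod_cast (by omega : 1 ≤ X)
      have e1 : |β₀ * n| ≤ β₀.natAbs * X := by
        rw [abs_mul, Int.abs_eq_natAbs β₀]
        exact mul_le_mul_of_nonneg_left hn2 (by positivity)
      have e2 : |α₀ * a| ≤ α₀.natAbs * (2 * K * X) := by
        rw [abs_mul, Int.abs_eq_natAbs α₀]
        exact mul_le_mul_of_nonneg_left ha1 (by positivity)
      have e3 : |ρ| ≤ ρ.natAbs * X := by
        rw [Int.abs_eq_natAbs ρ]
        exact le_mul_of_one_le_right (by positivity) hX1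
      refine (abs_add_le _ _).trans ((add_le_add ((abs_add_le _ _).trans (add_le_add e1 e2)) e3).trans (le_of_eq ?_))
      rw [hC]
      push_cast
      ring
    · intro m _ _
      exact abs_nonneg _
  have h1 : (B'.card : ℝ) * (k * A / 2) ≤ A * (ε' / (4 * C) * k * (C * X : ℕ)) := by
    have e1 : (B'.card : ℝ) * (k * A / 2) ≤ ∑ n ∈ B', ∑ a ∈ Ioc u (u + A), |∑ i ∈ range k, liou ((β₀ * n + α₀ * a + ρ) + (α₀ * N) * i)| := by
      rw [← nsmul_eq_mul, ← sum_const]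
      exact sum_le_sum hlow
    rw [sum_comm] at e1
    refine e1.trans ((sum_le_sum hupa).trans (le_of_eq ?_))
    rw [sum_const, nsmul_eq_mul, hcardW]
  have h2 : ε' * X * (k * A / 2) ≤ A * (ε' / (4 * C) * k * (C * X : ℕ)) :=
    (mul_le_mul_of_nonneg_right hB'c (by positivity)).trans h1
  have h3 : A * (ε' / (4 * C) * k * (C * X : ℕ)) = ε' * X * (k * A / 2) / 2 := by
    push_cast
    field_simp
    ring
  rw [h3] at h2
  have h4 : 0 < ε' * X * (k * A / 2) := by positivity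
  linarith

end Pool.Agent.Helper80.AN
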