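import Pool.Agent.Helper80.AN.Elim2

set_option autoImplicit false

/-! From patterns to single values: linear recurrences over the field with two elements are periodic. -/

namespace Pool.Agent.Helper80.AN

open Finset

lemma rec_step (φ : ℤ → ℝ) (hφ : ∀ a, φ a * φ a = 1) (S : Finset ℤ) (hS : S.Nonempty) (q r : ℕ) (hq : 1 ≤ q)
    (hr : (r : ℤ) = S.max' hS - S.min' hS + q) (x₁ x₂ : ℤ)
    (h1 : (∏ s ∈ S, φ (x₁ + s)) * (∏ s ∈ S, φ (x₁ + q + s)) = 1)
    (h2 : (∏ s ∈ S, φ (x₂ + s)) * (∏ s ∈ S, φ (x₂ + q + s)) = 1)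
    (heq : ∀ j : ℕ, j < r → φ (x₁ + S.min' hS + j) = φ (x₂ + S.min' hS + j)) :
    φ (x₁ + S.min' hS + r) = φ (x₂ + S.min' hS + r) := by
  obtain ⟨b, hb⟩ : ∃ b, b = S.min' hS := ⟨_, rfl⟩
  obtain ⟨t, ht⟩ : ∃ t, t = S.max' hS := ⟨_, rfl⟩
  rw [← hb, ← ht] at hr
  rw [← hb] at heq ⊢
  have htS : t ∈ S := by rw [ht]; exact S.max'_mem hS
  have hlo : ∀ s ∈ S, b ≤ s := fun s hs => by rw [hb]; exact S.min'_le s hs
  have hhi : ∀ s ∈ S, s ≤ t := fun s hs => by rw [ht]; exact S.le_max' s hs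
  have hval : ∀ z : ℤ, 0 ≤ z → z < r → φ (x₁ + b + z) = φ (x₂ + b + z) := by
    intro z hz0 hz1
    have := heq z.toNat (by omega)
    rwa [Int.toNat_of_nonneg hz0] at this
  have e1 : ∏ s ∈ S, φ (x₁ + s) = ∏ s ∈ S, φ (x₂ + s) := by
    apply prod_congr rfl
    intro s hs
    have := hval (s - b) (by linarith [hlo s hs]) (by rw [hr]; have := hhi s hs; have : (1 : ℤ) ≤ q := by exact_mod_cast hq
                                                      linarith)
    have a1 : x₁ + b + (s - b) = x₁ + s := by ring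
    have a2 : x₂ + b + (s - b) = x₂ + s := by ring
    rwa [a1, a2] at this
  have e2 : ∏ s ∈ S.erase t, φ (x₁ + q + s) = ∏ s ∈ S.erase t, φ (x₂ + q + s) := by
    apply prod_congr rfl
    intro s hs
    have hs' := mem_of_mem_erase hs
    have hst : s < t := lt_of_le_of_ne (hhi s hs') (ne_of_mem_erase hs)
    have := hval (q + s - b) (by have := hlo s hs'; have : (0 : ℤ) ≤ q := by positivity
                                 linarith) (by rw [hr]; linarith)
    have a1 : x₁ + b + (q + s - b) = x₁ + q + s := by ring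
    have a2 : x₂ + b + (q + s - b) = x₂ + q + s := by ring
    rwa [a1, a2] at this
  rw [← mul_prod_erase S (fun s => φ (x₁ + q + s)) htS, e1, e2] at h1
  rw [← mul_prod_erase S (fun s => φ (x₂ + q + s)) htS] at h2
  have a1 : x₁ + b + r = x₁ + q + t := by rw [hr]; ring
  have a2 : x₂ + b + r = x₂ + q + t := by rw [hr]; ring
  rw [a1, a2]
  obtain ⟨U, hU⟩ : ∃ U, U = ∏ s ∈ S, φ (x₂ + s) := ⟨_, rfl⟩
  obtain ⟨V, hV⟩ : ∃ V, V = ∏ s ∈ S.erase t, φ (x₂ + q + s) := ⟨_, rfl⟩
  rw [← hU, ← hV] at h1 h2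
  have hUV : U * V ≠ 0 := by
    intro h0
    have : U * (φ (x₂ + q + t) * V) = (U * V) * φ (x₂ + q + t) := by ring
    rw [this, h0, zero_mul] at h2
    norm_num at h2
  apply mul_right_cancel₀ hUV
  calc φ (x₁ + q + t) * (U * V) = U * (φ (x₁ + q + t) * V) := by ring
    _ = 1 := h1
    _ = U * (φ (x₂ + q + t) * V) := h2.symm
    _ = _ := by ring

lemma rec_core (φ : ℤ → ℝ) (hφ : ∀ a, φ a * φ a = 1) (S : Finset ℤ) (hS : S.Nonempty) (q r P : ℕ) (hq : 1 ≤ q)
    (hr : (r : ℤ) = S.max' hS - S.min' hS + q) (hP : 2 ^ r ≤ P) (x : ℤ)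
    (h : ∀ i : ℕ, i < P + P.factorial + 1 → (∏ s ∈ S, φ (x + i + s)) * (∏ s ∈ S, φ (x + i + q + s)) = 1) :
    φ (x + S.min' hS + P) * φ (x + S.min' hS + P + P.factorial) = 1 := by
  classical
  have hr1 : 1 ≤ r := by
    have h1 := S.min'_le_max' hS
    omega
  obtain ⟨b, hb⟩ : ∃ b, b = S.min' hS := ⟨_, rfl⟩
  -- two equal states
  have hpm : ∀ y z : ℤ, (φ y = 1 ↔ φ z = 1) → φ y = φ z := by
    intro y z hyz
    have hy : φ y = 1 ∨ φ y = -1 := by
      have := hφ y
      have h0 : (φ y - 1) * (φ y + 1) = 0 := by ring_nf; rw [pow_two, this]; norm_num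
      rcases mul_eq_zero.1 h0 with h0 | h0
      · left; linarith
      · right; linarith
    have hz : φ z = 1 ∨ φ z = -1 := by
      have := hφ z
      have h0 : (φ z - 1) * (φ z + 1) = 0 := by ring_nf; rw [pow_two, this]; norm_num
      rcases mul_eq_zero.1 h0 with h0 | h0
      · left; linarith
      · right; linarith
    rcases hy with hy | hy <;> rcases hz with hz | hz
    · rw [hy, hz]
    · exact absurd (hyz.1 hy) (by rw [hz]; norm_num)
    · exact absurd (hyz.2 hz) (by rw [hy]; norm_num)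
    · rw [hy, hz]
  obtain ⟨i, j, hij, hst⟩ := Fintype.exists_ne_map_eq_of_card_lt
    (fun i : Fin (P + 1) => (fun j : Fin r => decide (φ (x + b + (i : ℕ) + (j : ℕ)) = 1) : Fin r → Bool))
    (by rw [Fintype.card_fin, Fintype.card_fun, Fintype.card_bool, Fintype.card_fin]; omega)
  -- order them
  have main : ∀ i j : ℕ, i < j → j ≤ P → (∀ t : ℕ, t < r → φ (x + b + i + t) = φ (x + b + j + t)) →
      φ (x + b + P) * φ (x + b + P + P.factorial) = 1 := by
    intro i j hij hjP hst
    have hind : ∀ m : ℕ, j + m ≤ P + P.factorial + 1 → ∀ t : ℕ, t < r → φ (x + b + i + m + t) = φ (x + b + j + m + t) := by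
      intro m
      induction m with
      | zero => intro _ t ht; simpa using hst t ht
      | succ m ih =>
        intro hm t ht
        have ih' := ih (by omega)
        rcases Nat.lt_or_ge (t + 1) r with h1 | h1
        · have := ih' (t + 1) h1
          have a1 : x + b + (i : ℤ) + ((m + 1 : ℕ) : ℤ) + t = x + b + i + m + ((t + 1 : ℕ) : ℤ) := by push_cast; ring
          have a2 : x + b + (j : ℤ) + ((m + 1 : ℕ) : ℤ) + t = x + b + j + m + ((t + 1 : ℕ) : ℤ) := by push_cast; ring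
          rw [a1, a2]; exact this
        · have htr : t + 1 = r := by omega
          have h3 := rec_step φ hφ S hS q r hq hr (x + (i + m : ℕ)) (x + (j + m : ℕ)) (h (i + m) (by omega)) (h (j + m) (by omega)) (by
            intro t' ht'
            rw [← hb]
            have := ih' t' ht'
            have a1 : x + ((i + m : ℕ) : ℤ) + b + t' = x + b + i + m + t' := by push_cast; ring
            have a2 : x + ((j + m : ℕ) : ℤ) + b + t' = x + b + j + m + t' := by push_cast; ring
            rw [a1, a2]; exact this)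
          rw [← hb] at h3
          have a1 : x + b + (i : ℤ) + ((m + 1 : ℕ) : ℤ) + t = x + ((i + m : ℕ) : ℤ) + b + r := by
            rw [← htr]; push_cast; ring
          have a2 : x + b + (j : ℤ) + ((m + 1 : ℕ) : ℤ) + t = x + ((j + m : ℕ) : ℤ) + b + r := by
            rw [← htr]; push_cast; ring
          rw [a1, a2]; exact h3
    -- period p = j - i on the relevant range
    obtain ⟨p, hp⟩ : ∃ p, p = j - i := ⟨_, rfl⟩
    have hp1 : 1 ≤ p := by omega
    have hpP : p ≤ P := by omega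
    have hper : ∀ z : ℕ, i ≤ z → z + p ≤ P + P.factorial → φ (x + b + z) = φ (x + b + z + p) := by
      intro z hz1 hz2
      have := hind (z - i) (by omega) 0 (by omega)
      have a1 : x + b + (i : ℤ) + ((z - i : ℕ) : ℤ) + ((0 : ℕ) : ℤ) = x + b + z := by rw [Nat.cast_sub hz1]; push_cast; ring
      have a2 : x + b + (j : ℤ) + ((z - i : ℕ) : ℤ) + ((0 : ℕ) : ℤ) = x + b + z + p := by
        rw [hp, Nat.cast_sub hz1, Nat.cast_sub hij.le]; push_cast; ring
      rw [a1, a2] at this; exact this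
    have hchain : ∀ w : ℕ, p * w ≤ P.factorial → φ (x + b + P + (p * w : ℕ)) = φ (x + b + P) := by
      intro w
      induction w with
      | zero => intro _; simp
      | succ w ih =>
        intro hw
        have hw' : p * w + p ≤ P.factorial := by rw [Nat.mul_succ] at hw; exact hw
        rw [← ih (by omega)]
        have := hper (P + p * w) (by omega) (by omega)
        have a1 : x + b + ((P + p * w : ℕ) : ℤ) = x + b + P + ((p * w : ℕ) : ℤ) := by push_cast; ring
        have a2 : x + b + ((P + p * w : ℕ) : ℤ) + p = x + b + P + ((p * (w + 1) : ℕ) : ℤ) := by push_cast; ring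
        rw [a1] at this a2
        rw [← a2, ← this]
    obtain ⟨w, hw⟩ : p ∣ P.factorial := Nat.dvd_factorial hp1 hpP
    have := hchain w hw.symm.le
    rw [← hw] at this
    rw [this]
    exact hφ _
  rw [← hb]
  have hst' : ∀ t : ℕ, t < r → φ (x + b + (i : ℕ) + t) = φ (x + b + (j : ℕ) + t) := by
    intro t ht
    apply hpm
    have := congrFun hst ⟨t, ht⟩
    simpa using this
  have hne : (i : ℕ) ≠ (j : ℕ) := fun h => hij (Fin.ext h)
  rcases lt_or_gt_of_ne hne with h1 | h1
  · exact main i j h1 (by have := j.2; omega) hst'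
  · exact main j i h1 (by have := i.2; omega) fun t ht => (hst' t ht).symm

/-- from patterns to single values -/
lemma recper (S : Finset ℤ) (hS : S.Nonempty) (Q : ℕ) : ∃ N : ℕ, 1 ≤ N ∧ ∃ K : ℕ, 1 ≤ K ∧
    ∀ φ : ℤ → ℝ, (∀ a, φ a * φ a = 1) → ∀ q : ℕ, 1 ≤ q → q ≤ Q → ∀ (u : ℤ) (A : ℕ) (E : ℝ),
    (((Ioc u (u + A)).filter (fun a => (∏ s ∈ S, φ (a + s)) * (∏ s ∈ S, φ (a + q + s)) ≠ 1)).card : ℝ) ≤ E →
    (((Ioc u (u + A)).filter (fun a => φ a * φ (a + N) ≠ 1)).card : ℝ) ≤ K * E + K := by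
  obtain ⟨b, hb⟩ : ∃ b, b = S.min' hS := ⟨_, rfl⟩
  obtain ⟨P, hP⟩ : ∃ P : ℕ, P = 2 ^ ((S.max' hS - S.min' hS).toNat + Q) := ⟨_, rfl⟩
  obtain ⟨K, hK⟩ : ∃ K : ℕ, K = P + P.factorial + 1 := ⟨_, rfl⟩
  refine ⟨P.factorial, Nat.factorial_pos _, K + (-b - P).natAbs + (-b - P + K).natAbs, by omega, ?_⟩
  intro φ hφ q hq1 hqQ u A E h
  obtain ⟨Bad, hBad⟩ : ∃ Bad, Bad = ((Ioc u (u + A)).filter (fun a => (∏ s ∈ S, φ (a + s)) * (∏ s ∈ S, φ (a + q + s)) ≠ 1)) := ⟨_, rfl⟩
  rw [← hBad] at h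
  have hmm := S.min'_le_max' hS
  obtain ⟨r, hr⟩ : ∃ r : ℕ, r = (S.max' hS - S.min' hS).toNat + q := ⟨_, rfl⟩
  have hr' : (r : ℤ) = S.max' hS - S.min' hS + q := by omega
  have hPr : 2 ^ r ≤ P := by
    rw [hP, hr]
    exact Nat.pow_le_pow_right (by norm_num) (by omega)
  have hsub : (Ioc u (u + A)).filter (fun a => φ a * φ (a + P.factorial) ≠ 1) ⊆
      ((Ioc u (u + A)).filter (fun a => a + (-b - P) ∉ Ioc u (u + A))) ∪
      (((Ioc u (u + A)).filter (fun a => a + (-b - P + K) ∉ Ioc u (u + A))) ∪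
      ((range K).biUnion (fun i : ℕ => Bad.image (fun x : ℤ => x - i + b + P)))) := by
    intro a ha
    rw [mem_filter] at ha
    rw [mem_union, mem_union, mem_filter, mem_filter]
    by_cases h1 : a + (-b - P) ∈ Ioc u (u + A)
    swap
    · exact Or.inl ⟨ha.1, h1⟩
    right
    by_cases h2 : a + (-b - P + K) ∈ Ioc u (u + A)
    swap
    · exact Or.inl ⟨ha.1, h2⟩
    right
    by_contra hcon
    apply ha.2
    have := rec_core φ hφ S hS q r P hq1 hr' hPr (a - b - P) (by
      intro i hi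
      by_contra hne
      apply hcon
      rw [mem_biUnion]
      refine ⟨i, mem_range.2 (by rw [hK]; exact hi), ?_⟩
      rw [mem_image]
      refine ⟨a - b - P + i, ?_, by ring⟩
      rw [hBad, mem_filter]
      refine ⟨?_, hne⟩
      rw [mem_Ioc] at h1 h2 ⊢
      have hiK : (i : ℤ) < K := by exact_mod_cast (by rw [hK]; exact hi : i < K)
      have hi0 : (0 : ℤ) ≤ i := by positivity
      constructor <;> linarith [h1.1, h1.2, h2.1, h2.2])
    rw [← hb] at this
    have e1 : a - b - (P : ℤ) + b + P = a := by ring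
    rw [e1] at this
    exact this
  have hc1 := card_le_card hsub
  have hc2 := hc1.trans (card_union_le _ _)
  have hc2' := card_union_le ((Ioc u (u + A)).filter (fun a => a + (-b - P + K) ∉ Ioc u (u + A)))
    ((range K).biUnion (fun i : ℕ => Bad.image (fun x : ℤ => x - i + b + P)))
  have hc3 : ((range K).biUnion (fun i : ℕ => Bad.image (fun x : ℤ => x - i + b + P))).card ≤ K * Bad.card := by
    refine card_biUnion_le.trans ?_
    refine (sum_le_sum fun p _ => card_image_le).trans ?_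
    rw [sum_const, card_range, smul_eq_mul]
  have hc4 := bdry u A (-b - P)
  have hc5 := bdry u A (-b - P + K)
  have hc6 : ((Ioc u (u + A)).filter (fun a => φ a * φ (a + P.factorial) ≠ 1)).card ≤
      (-b - P).natAbs + (-b - P + K).natAbs + K * Bad.card := by omega
  have hc7 : (((Ioc u (u + A)).filter (fun a => φ a * φ (a + P.factorial) ≠ 1)).card : ℝ) ≤
      (-b - P).natAbs + (-b - P + K).natAbs + K * Bad.card := by exact_mod_cast hc6
  refine hc7.trans ?_
  have hE0 : 0 ≤ E := le_trans (Nat.cast_nonneg _) h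
  have hK0 : (0 : ℝ) ≤ K := Nat.cast_nonneg _
  have h8 : (0 : ℝ) ≤ ((-b - P).natAbs : ℝ) := Nat.cast_nonneg _
  have h9 : (0 : ℝ) ≤ ((-b - P + K).natAbs : ℝ) := Nat.cast_nonneg _
  push_cast
  nlinarith [mul_le_mul_of_nonneg_left h hK0, mul_nonneg h8 hE0, mul_nonneg h9 hE0]

end Pool.Agent.Helper80.AN
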